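import Pool.Agent.H362R2.QT.BV
import Pool.Agent.H378R2.M7r
import Pool.Agent.H373R2.T7.Crt

/-! The excluded residue classes and the theorem of Bombieri and Vinogradov for them. -/

set_option autoImplicit false

namespace Pool.Agent.D0H63.FP
open Finset Filter
open Pool.Agent.H378R2 (Phi EPhi LPhi)

/-- `n` is not divisible by `p`, and `p` divides `n ^ 2 - 2`, or `p ≤ z` and `p` divides `N - m n` -/
def Bad (z m N p n : ℕ) : Prop :=
  ¬ p ∣ n ∧ ((p : ℤ) ∣ (n : ℤ) ^ 2 - 2 ∨ (p ≤ z ∧ (p : ℤ) ∣ (N : ℤ) - m * n))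

lemma Bad_mod (z m N p n : ℕ) : Bad z m N p (n % p) ↔ Bad z m N p n := by
  have h0 : (p : ℤ) ∣ (n : ℤ) - ((n % p : ℕ) : ℤ) := by
    have h1 := Nat.mod_add_div n p
    refine ⟨((n / p : ℕ) : ℤ), ?_⟩
    have h2 : ((n % p + p * (n / p) : ℕ) : ℤ) = (n : ℤ) := by exact_mod_cast h1
    push_cast at h2 ⊢
    linarith
  have h1 : (p : ℤ) ∣ ((n : ℤ) ^ 2 - 2) - (((n % p : ℕ) : ℤ) ^ 2 - 2) := by
    have e : ((n : ℤ) ^ 2 - 2) - (((n % p : ℕ) : ℤ) ^ 2 - 2) =
        ((n : ℤ) - ((n % p : ℕ) : ℤ)) * ((n : ℤ) + ((n % p : ℕ) : ℤ)) := by ring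
    rw [e]
    exact h0.mul_right _
  have h2 : (p : ℤ) ∣ ((N : ℤ) - m * n) - ((N : ℤ) - m * ((n % p : ℕ) : ℤ)) := by
    have e : ((N : ℤ) - m * n) - ((N : ℤ) - m * ((n % p : ℕ) : ℤ)) =
        ((n : ℤ) - ((n % p : ℕ) : ℤ)) * (-(m : ℤ)) := by ring
    rw [e]
    exact h0.mul_right _
  unfold Bad
  rw [Int.dvd_iff_dvd_of_dvd_sub h1, Int.dvd_iff_dvd_of_dvd_sub h2]
  have h3 : p ∣ n % p ↔ p ∣ n := by
    rw [Nat.dvd_iff_mod_eq_zero, Nat.dvd_iff_mod_eq_zero, Nat.mod_mod]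
  rw [h3]

open Classical in
/-- the number of the excluded classes -/
noncomputable def rb (z m N p : ℕ) : ℕ := ((range p).filter (fun a => Bad z m N p a)).card

open Classical in
/-- the classes modulo the product -/
noncomputable def RT (z m N : ℕ) (T : Finset ℕ) : Finset ℕ :=
  (range (∏ p ∈ T, p)).filter (fun b => ∀ p ∈ T, Bad z m N p b)

lemma RT_card (z m N : ℕ) (T : Finset ℕ) (hT : ∀ p ∈ T, p.Prime) :
    (RT z m N T).card = ∏ p ∈ T, rb z m N p := by
  classical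
  have h := Pool.Agent.H373R2.T7.crt_aux (fun p a => Bad z m N p a) T hT 1 le_rfl
    (fun p hp hd => (hT p hp).one_lt.ne' (Nat.dvd_one.1 hd)) 0
  rw [one_mul] at h
  unfold RT rb
  rw [← h]
  congr 1
  apply filter_congr
  intro n _
  constructor
  · intro h1
    refine ⟨Nat.modEq_one, fun p hp => (Bad_mod z m N p n).2 (h1 p hp)⟩
  · rintro ⟨_, h1⟩ p hp
    exact (Bad_mod z m N p n).1 (h1 p hp)

lemma RT_cop (z m N : ℕ) (T : Finset ℕ) (hT : ∀ p ∈ T, p.Prime) (b : ℕ) (hb : b ∈ RT z m N T) :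
    b < ∏ p ∈ T, p ∧ b.Coprime (∏ p ∈ T, p) := by
  classical
  unfold RT at hb
  rw [mem_filter, mem_range] at hb
  refine ⟨hb.1, ?_⟩
  apply Nat.Coprime.prod_right
  intro p hp
  exact ((Nat.Prime.coprime_iff_not_dvd (hT p hp)).2 (hb.2 p hp).1).symm

open Classical in
/-- the sum over the `n` in all the excluded classes -/
noncomputable def ST (z m N : ℕ) (X : ℝ) (T : Finset ℕ) : ℝ :=
  ∑ n ∈ (Icc 1 ⌊3 * X⌋₊).filter (fun n => ∀ p ∈ T, Bad z m N p n),
    Phi (n / X) * ArithmeticFunction.vonMangoldt n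

lemma ST_eq (z m N : ℕ) (X : ℝ) (T : Finset ℕ) (hT : ∀ p ∈ T, p.Prime) :
    ST z m N X T - LPhi X * ∏ p ∈ T, ((rb z m N p : ℝ) / ((p : ℝ) - 1)) =
      ∑ b ∈ RT z m N T, EPhi X (∏ p ∈ T, p) b := by
  classical
  obtain ⟨d, hd⟩ : ∃ d, d = ∏ p ∈ T, p := ⟨_, rfl⟩
  have hd0 : 0 < d := by
    rw [hd]
    exact Finset.prod_pos fun p hp => (hT p hp).pos
  have hpd : ∀ p ∈ T, p ∣ d := fun p hp => by rw [hd]; exact dvd_prod_of_mem _ hp
  have h1 : ST z m N X T = ∑ b ∈ RT z m N T, ∑ n ∈ (Icc 1 ⌊3 * X⌋₊).filter (fun n => n ≡ b [MOD d]),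
      Phi (n / X) * ArithmeticFunction.vonMangoldt n := by
    unfold ST
    rw [← sum_fiberwise_of_maps_to (t := RT z m N T) (g := fun n => n % d)]
    · apply sum_congr rfl
      intro b hb
      apply sum_congr _ (fun _ _ => rfl)
      unfold RT at hb
      rw [mem_filter, mem_range, ← hd] at hb
      ext n
      rw [mem_filter, mem_filter, mem_filter]
      constructor
      · rintro ⟨⟨h1, h2⟩, h3⟩
        refine ⟨h1, ?_⟩
        unfold Nat.ModEq
        rw [h3, Nat.mod_eq_of_lt hb.1]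
      · rintro ⟨h1, h2⟩
        have h2' : n ≡ b [MOD d] := h2
        unfold Nat.ModEq at h2
        rw [Nat.mod_eq_of_lt hb.1] at h2
        refine ⟨⟨h1, fun p hp => ?_⟩, h2⟩
        have h5 : n % p = b % p := by
          obtain ⟨e, he⟩ := hpd p hp
          have h6 : n ≡ b [MOD (p * e)] := by rw [← he]; exact h2'
          exact h6.of_mul_right e
        rw [← Bad_mod, h5, Bad_mod]
        exact hb.2 p hp
    · intro n hn
      rw [mem_filter] at hn
      unfold RT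
      rw [mem_filter, mem_range, ← hd]
      refine ⟨Nat.mod_lt _ hd0, fun p hp => ?_⟩
      rw [← Bad_mod, Nat.mod_mod_of_dvd _ (hpd p hp), Bad_mod]
      exact hn.2 p hp
  have h2 : ∏ p ∈ T, ((rb z m N p : ℝ) / ((p : ℝ) - 1)) =
      ((RT z m N T).card : ℝ) / (Nat.totient d : ℝ) := by
    rw [RT_card z m N T hT, hd, Pool.Agent.H373R2.T7.totient_prod T hT, prod_div_distrib]
    push_cast
    congr 1
    apply prod_congr rfl
    intro p hp
    rw [Nat.cast_sub (hT p hp).one_le]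
    push_cast
    rfl
  rw [h1, h2, ← hd]
  unfold EPhi LPhi
  rw [sum_sub_distrib, sum_const, nsmul_eq_mul]
  ring

lemma sqf_prod (T : Finset ℕ) (hT : ∀ p ∈ T, p.Prime) : Squarefree (∏ p ∈ T, p) := by
  classical
  induction T using Finset.induction_on with
  | empty => simp
  | insert p S hp ih =>
    have hS' : ∀ p' ∈ S, p'.Prime := fun p' h => hT p' (mem_insert_of_mem h)
    have hpp := hT p (mem_insert_self _ _)
    rw [prod_insert hp]
    refine Nat.squarefree_mul_iff.2 ⟨?_, hpp.prime.squarefree, ih hS'⟩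
    apply Nat.Coprime.prod_right
    intro q hq
    exact (Nat.coprime_primes hpp (hS' q hq)).2 (fun h => hp (h ▸ hq))

end Pool.Agent.D0H63.FP
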