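import Pool.Agent.D0H63.FP.Tot
import Pool.Agent.N625.PT.S
import Pool.Agent.Y882.KW.Num

/-! The representations of `N` follow from the smallness of a sum over the differences `N - j`. -/

set_option autoImplicit false

namespace Pool.Agent.D0H63.FP
open Finset Filter Polynomial
open Pool.Agent.H373R2.T7 (pz Vz mem_pz lamI lamP lamzI lamz lamP_nonneg Vz_pos lamI_nonneg)
open Pool.Agent.N625.PT (Det sum_mult swap_mult lamI_np lamP_np lamzI_np)

/-- the admissible slopes -/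
def AdM (J : ℕ) (X : ℕ) (m : ℕ) : Prop := 1 ≤ m ∧ (m : ℝ) ≤ Real.log X ^ J

open Classical in
/-- many primes `q` with `N - m q` prime and `q ^ 2 - 2` almost prime -/
def PF (c : ℝ) (N₀ : ℕ) (m N : ℕ) : Prop :=
  N.Coprime m → Odd (N + m) → N₀ ≤ N ∧ 2 * m ≤ N ∧
    c * N / (m * Real.log N ^ 3) ≤ (((Icc 1 N).filter (fun q : ℕ => q.Prime ∧ Good ((N : ℝ) ^ (999 / 5000 : ℝ)) q ∧
      ((N : ℤ) - m * q).toNat.Prime)).card : ℝ)

lemma lamP_le_log (k : ℤ) (N : ℕ) (hk : k ≤ N) : lamP k ≤ Real.log N := by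
  unfold lamP
  split_ifs with h
  · apply Real.log_le_log (by exact_mod_cast h.pos)
    have : k.toNat ≤ N := by omega
    exact_mod_cast this
  · exact Real.log_natCast_nonneg _

open Classical in
theorem low3 : ∃ ε₁ f : ℝ, 0 < ε₁ ∧ 0 < f ∧ ∀ B : ℕ, ∃ Y0 : ℕ, ∀ Y : ℕ, Y0 ≤ Y → ∀ X : ℝ,
      (Y : ℝ) ^ (4997 / 4999 : ℝ) ≤ X → 3 * X ≤ Y → ∀ z m N : ℕ, (z : ℝ) < (Y : ℝ) ^ ε₁ → N.Coprime m → Odd (N + m) →
      f * Vz z * X / Real.log Y - X / Real.log Y ^ B ≤
        ∑ n ∈ (Icc 1 ⌊3 * X⌋₊).filter (fun n : ℕ => Good ((Y : ℝ) ^ (999 / 5000 : ℝ)) n ∧ ∀ p ∈ pz z, ¬ (p : ℤ) ∣ (N : ℤ) - m * n),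
          lamP ((n : ℕ) : ℤ) := by
  have hJ := Pool.Agent.Y882.KW.cond_B (999 / 2000) (20 / 31) (by norm_num) (by norm_num) (by norm_num)
  have h := low2 (999 / 2000) (999 / 5000) (8991 / 20000) (20 / 31) (4997 / 10000) (4999 / 10000)
    (by norm_num) (by norm_num) (by norm_num) (by norm_num) (by norm_num) (by norm_num) (by norm_num) (by
      convert hJ using 3 <;> norm_num) (by norm_num) (by norm_num) (by norm_num) (by norm_num) (by norm_num)
  norm_num at h ⊢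
  exact h

theorem det_five : ∃ c : ℝ, 0 < c ∧ ∀ J N₀ : ℕ, Det (AdM J) (PF c N₀) := by
  classical
  obtain ⟨ε₁, f, hε, hf, HL⟩ := low3
  refine ⟨f / 32, by positivity, fun J N₀ W => ⟨W + J + 2, 1, fun Bz => ?_⟩⟩
  obtain ⟨ρ, hρ⟩ : ∃ ρ : ℝ, ρ = 4997 / 4999 := ⟨_, rfl⟩
  rw [← hρ] at HL
  have hρ1 : ρ < 1 := by rw [hρ]; norm_num
  obtain ⟨Y0, H1⟩ := HL (Bz + 3)
  obtain ⟨X1, H2⟩ := Pool.Agent.N625.PT.size_rel W Bz J 1 0 0 le_rfl N₀
  have ev2 : ∀ᶠ Y : ℕ in atTop, 32 / f + 4 ≤ Real.log Y :=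
    (Real.tendsto_log_atTop.comp tendsto_natCast_atTop_atTop).eventually_ge_atTop _
  obtain ⟨X2, H3⟩ := eventually_atTop.1 (ev2.and ((ev_pow (1 - ρ) 4 (by linarith) (W + J)).and
    ((ev_pow ε₁ 3 hε Bz).and ((ev_pow (1 / 2) (64 / f) (by norm_num) (W + J + 3)).and
    ((ev_pow 1 2 (by norm_num) (W + J)).and (eventually_ge_atTop 4))))))
  refine ⟨Bz + 1, Y0 + X1 + X2, fun X hX m hm => ?_⟩
  obtain ⟨hm1, hmJ⟩ := hm
  obtain ⟨a1, a2, a3, a4, a5, a6⟩ := H3 X (by omega)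
  have H2' := H2 X (by omega)
  have H1' := H1 X (by omega)
  have hXr : (4 : ℝ) ≤ X := by exact_mod_cast a6
  have hX0 : (0 : ℝ) < X := by linarith
  obtain ⟨L, hL⟩ : ∃ L, L = Real.log (X : ℝ) := ⟨_, rfl⟩
  rw [← hL] at a1 a2 a3 a4 a5 hmJ H1' ⊢
  have hf32 : 0 < 32 / f := by positivity
  have hL4 : 4 ≤ L := by linarith
  have hL0 : 0 < L := by linarith
  have hL1 : 1 ≤ L := by linarith
  have hLf : 32 ≤ L * f := by
    have : 32 / f ≤ L := by linarith
    rwa [div_le_iff₀ hf] at this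
  obtain ⟨z, hz⟩ : ∃ z, z = ⌈L ^ Bz⌉₊ := ⟨_, rfl⟩
  have hz1 : L ^ Bz ≤ z := by rw [hz]; exact Nat.le_ceil _
  have hLB : 1 ≤ L ^ Bz := one_le_pow₀ hL1
  have hz2 : (z : ℝ) ≤ 2 * L ^ Bz := by
    have h5 : (z : ℝ) < L ^ Bz + 1 := by rw [hz]; exact Nat.ceil_lt_add_one (by positivity)
    linarith
  have hz3 : (z : ℝ) ≤ L ^ (Bz + 1) := by
    refine hz2.trans ?_
    rw [pow_succ, mul_comm]
    exact mul_le_mul_of_nonneg_left (by linarith) (by positivity)
  have hzε : (z : ℝ) < (X : ℝ) ^ ε₁ := by linarith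
  have hz0 : 1 ≤ z := by
    have : (1 : ℝ) ≤ z := hLB.trans hz1
    exact_mod_cast this
  obtain ⟨fw, hfw⟩ : ∃ fw : ℕ → ℝ, fw = fun n : ℕ => if Good ((X : ℝ) ^ (999 / 5000 : ℝ)) n then lamP ((n : ℕ) : ℤ) else 0 := ⟨_, rfl⟩
  have hfw0 : ∀ n, 0 ≤ fw n := by
    intro n
    rw [hfw]
    simp only
    split_ifs
    · exact lamP_nonneg _
    · exact le_rfl
  have hfwN : ∀ n N : ℕ, n ≤ N → fw n ≤ Real.log N := by
    intro n N hn
    rw [hfw]
    simp only
    split_ifs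
    · exact lamP_le_log _ N (by exact_mod_cast hn)
    · exact Real.log_natCast_nonneg _
  have hm0 : (0 : ℝ) < m := by exact_mod_cast hm1
  have hm1r : (1 : ℝ) ≤ m := by exact_mod_cast hm1
  refine ⟨z, fun j => if m ∣ j then fw (j / m) else 0, hz1, hz3, ?_, ?_⟩
  · intro j hj
    rw [mem_Icc] at hj
    rw [pow_one]
    simp only
    split_ifs
    · rw [abs_of_nonneg (hfw0 _), hL]
      exact hfwN _ _ ((Nat.div_le_self _ _).trans hj.2)
    · rw [abs_zero]
      exact hL0.le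
  · intro N hN1 hN2 hsum hcop hodd
    obtain ⟨b1, b2, b3, b4, -, -, -, -, -⟩ := H2' N (by rw [← hL]; exact hN1) hN2
    rw [← hL] at b3 b4
    obtain ⟨l, hl⟩ : ∃ l, l = Real.log (N : ℝ) := ⟨_, rfl⟩
    rw [← hl] at b1 b3 b4 ⊢
    have hl0 : 0 < l := by linarith
    have hN2r : (N : ℝ) ≤ X := by exact_mod_cast hN2
    have hNW : (X : ℝ) ≤ N * L ^ W := by
      rw [div_le_iff₀ (by positivity)] at hN1
      exact hN1
    have hN0 : (0 : ℝ) < N := by
      by_contra h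
      push Not at h
      have : (N : ℝ) * L ^ W ≤ 0 := mul_nonpos_of_nonpos_of_nonneg h (by positivity)
      linarith
    have hN1' : 1 ≤ N := by exact_mod_cast hN0
    -- the size of the slope
    have h2mN : 2 * m ≤ N := by
      have g1 : 2 * (m : ℝ) * L ^ W ≤ N * L ^ W := by
        calc 2 * (m : ℝ) * L ^ W ≤ 2 * L ^ J * L ^ W := by gcongr
          _ = 2 * L ^ (W + J) := by rw [pow_add]; ring
          _ ≤ (X : ℝ) ^ (1 : ℝ) := a5
          _ = X := Real.rpow_one _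
          _ ≤ _ := hNW
      have g2 : 2 * (m : ℝ) ≤ N := le_of_mul_le_mul_right g1 (by positivity)
      exact_mod_cast g2
    refine ⟨b2, h2mN, ?_⟩
    obtain ⟨x, hx⟩ : ∃ x : ℝ, x = N / (4 * m) := ⟨_, rfl⟩
    have hx0 : 0 < x := by rw [hx]; positivity
    have hxN : 4 * m * x = N := by rw [hx]; field_simp
    have hXx : (X : ℝ) ≤ 4 * L ^ (W + J) * x := by
      calc (X : ℝ) ≤ N * L ^ W := hNW
        _ = 4 * m * x * L ^ W := by rw [hxN]
        _ ≤ 4 * L ^ J * x * L ^ W := by gcongr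
        _ = 4 * L ^ (W + J) * x := by rw [pow_add]; ring
    have c1 : (X : ℝ) ^ ρ ≤ x := by
      have g1 : (X : ℝ) = (X : ℝ) ^ ρ * (X : ℝ) ^ (1 - ρ) := by
        rw [← Real.rpow_add hX0]
        simp
      have g2 : (X : ℝ) ^ ρ * (4 * L ^ (W + J)) ≤ x * (4 * L ^ (W + J)) := by
        calc (X : ℝ) ^ ρ * (4 * L ^ (W + J)) ≤ (X : ℝ) ^ ρ * (X : ℝ) ^ (1 - ρ) := by gcongr
          _ = X := g1.symm
          _ ≤ _ := by linarith
      exact le_of_mul_le_mul_right g2 (by positivity)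
    have c2 : 3 * x ≤ N := by
      rw [← hxN]
      nlinarith
    obtain ⟨M, hM⟩ : ∃ M, M = ⌊3 * x⌋₊ := ⟨_, rfl⟩
    have hMx : (M : ℝ) ≤ 3 * x := by rw [hM]; exact Nat.floor_le (by linarith)
    have hMN : M ≤ N := by
      have : (M : ℝ) ≤ N := hMx.trans c2
      exact_mod_cast this
    have c3 := H1' x c1 (c2.trans hN2r) z m N hzε hcop hodd
    rw [← hM] at c3
    -- the model sum
    have hVp := Vz_pos z
    have hVi : (Vz z)⁻¹ ≤ L ^ (Bz + 1) := (Pool.Agent.H373R2.T7.Vz_inv_le z hz0).trans hz3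
    have hVi0 : 0 < (Vz z)⁻¹ := inv_pos.2 hVp
    have c4 : (Vz z)⁻¹ * ∑ n ∈ (Icc 1 M).filter (fun n : ℕ => Good ((X : ℝ) ^ (999 / 5000 : ℝ)) n ∧
          ∀ p ∈ pz z, ¬ (p : ℤ) ∣ (N : ℤ) - m * n), lamP ((n : ℕ) : ℤ) ≤
        ∑ n ∈ Icc 1 N, fw n * lamzI z ((N : ℤ) - m * n) := by
      rw [mul_sum]
      have hsub : (Icc 1 M).filter (fun n : ℕ => Good ((X : ℝ) ^ (999 / 5000 : ℝ)) n ∧
          ∀ p ∈ pz z, ¬ (p : ℤ) ∣ (N : ℤ) - m * n) ⊆ Icc 1 N := by
        intro n hn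
        rw [mem_filter, mem_Icc] at hn
        rw [mem_Icc]
        omega
      have hnn : ∀ v : ℤ, 0 ≤ lamzI z v := by
        intro v
        unfold lamzI
        split_ifs
        · unfold lamz
          split_ifs
          · exact hVi0.le
          · exact le_rfl
        · exact le_rfl
      refine le_trans (sum_le_sum ?_) (sum_le_sum_of_subset_of_nonneg hsub fun n _ _ => mul_nonneg (hfw0 n) (hnn _))
      intro n hn
      rw [mem_filter, mem_Icc] at hn
      obtain ⟨⟨hn1, hnM⟩, hG, hR⟩ := hn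
      have hf1 : fw n = lamP ((n : ℕ) : ℤ) := by
        rw [hfw]
        simp only
        rw [if_pos hG]
      have hpos : 1 ≤ (N : ℤ) - m * n := by
        have g1 : (m : ℝ) * n < N := by
          have g2 : (n : ℝ) ≤ 3 * x := le_trans (by exact_mod_cast hnM) hMx
          calc (m : ℝ) * n ≤ m * (3 * x) := by gcongr
            _ < 4 * m * x := by nlinarith
            _ = N := hxN
        have g3 : ((m * n : ℕ) : ℝ) < N := by push_cast; exact g1
        have g4 : m * n < N := by exact_mod_cast g3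
        have : ((m * n : ℕ) : ℤ) < N := by exact_mod_cast g4
        push_cast at this
        linarith
      have hlz : lamzI z ((N : ℤ) - m * n) = (Vz z)⁻¹ := by
        unfold lamzI lamz
        rw [if_pos hpos, if_pos]
        intro p hp hd
        apply hR p hp
        have g1 : ((p : ℕ) : ℤ) ∣ ((((N : ℤ) - m * n).toNat : ℕ) : ℤ) := by exact_mod_cast hd
        rwa [Int.toNat_of_nonneg (by linarith)] at g1
      rw [hf1, hlz, mul_comm]
    have c5 : f * x / L - x / L ^ 2 ≤ ∑ n ∈ Icc 1 N, fw n * lamzI z ((N : ℤ) - m * n) := by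
      refine le_trans ?_ c4
      refine le_trans ?_ (mul_le_mul_of_nonneg_left c3 hVi0.le)
      have g0 : (Vz z)⁻¹ * Vz z = 1 := inv_mul_cancel₀ hVp.ne'
      have g1 : (Vz z)⁻¹ * (f * Vz z * x / L - x / L ^ (Bz + 3)) = f * x / L - (Vz z)⁻¹ * (x / L ^ (Bz + 3)) := by
        calc (Vz z)⁻¹ * (f * Vz z * x / L - x / L ^ (Bz + 3)) =
            ((Vz z)⁻¹ * Vz z) * (f * x / L) - (Vz z)⁻¹ * (x / L ^ (Bz + 3)) := by ring
          _ = _ := by rw [g0, one_mul]
      rw [g1]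
      have g2 : (Vz z)⁻¹ * (x / L ^ (Bz + 3)) ≤ L ^ (Bz + 1) * (x / L ^ (Bz + 3)) := by gcongr
      have g3 : L ^ (Bz + 1) * (x / L ^ (Bz + 3)) = x / L ^ 2 := by
        have g4 : L ^ (Bz + 3) = L ^ (Bz + 1) * L ^ 2 := by rw [← pow_add]
        rw [g4, mul_div_assoc', mul_div_mul_left _ _ (by positivity)]
      linarith
    -- the true sum
    have c6 := sum_mult fw (fun v => lamI v - lamzI z v) (fun v hv => by
      rw [lamI_np v hv, lamzI_np z v hv, sub_zero]) m N X hm1 hN2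
    simp only at c6 hsum
    rw [c6] at hsum
    have c7 := swap_mult fw l m N hm1 hN1' hl0.le (by
      intro n hn
      rw [mem_Icc] at hn
      rw [abs_of_nonneg (hfw0 n), hl]
      exact hfwN n N hn.2)
    rw [← hl] at c7
    have c8 : ∑ n ∈ Icc 1 N, fw n * (lamI ((N : ℤ) - m * n) - lamzI z ((N : ℤ) - m * n)) =
        ∑ n ∈ Icc 1 N, fw n * lamI ((N : ℤ) - m * n) - ∑ n ∈ Icc 1 N, fw n * lamzI z ((N : ℤ) - m * n) := by
      rw [← sum_sub_distrib]
      apply sum_congr rfl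
      intro n _
      ring
    rw [c8] at hsum
    have d1 := (abs_le.1 hsum).1
    have d2 := (abs_le.1 c7).2
    have hxL : 0 < x / L := by positivity
    have d3 : x / L ^ 2 ≤ f / 32 * (x / L) := by
      have g1 : x / L ^ 2 = (1 / L) * (x / L) := by field_simp
      rw [g1]
      apply mul_le_mul_of_nonneg_right _ hxL.le
      rw [div_le_div_iff₀ hL0 (by norm_num)]
      linarith
    have d4 : (X : ℝ) / L ^ (W + J + 2) ≤ f / 8 * (x / L) := by
      have g1 : (X : ℝ) / L ^ (W + J + 2) ≤ 4 * (x / L ^ 2) := by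
        rw [div_le_iff₀ (by positivity)]
        calc (X : ℝ) ≤ 4 * L ^ (W + J) * x := hXx
          _ = 4 * (x / L ^ 2) * L ^ (W + J + 2) := by
            rw [pow_add L (W + J) 2]
            field_simp
      linarith
    have d5 : l * (2 * √(N : ℝ) * l) ≤ f / 8 * (x / L) := by
      have g0 : √(N : ℝ) ≤ (X : ℝ) ^ (1 / 2 : ℝ) := by
        rw [← Real.sqrt_eq_rpow]
        exact Real.sqrt_le_sqrt hN2r
      have g1 : (X : ℝ) ^ (1 / 2 : ℝ) * (X : ℝ) ^ (1 / 2 : ℝ) = X := by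
        rw [← Real.rpow_add hX0]
        norm_num
      have g2 : (X : ℝ) ^ (1 / 2 : ℝ) * (64 / f * L ^ (W + J + 3)) ≤ 4 * L ^ (W + J) * x := by
        calc (X : ℝ) ^ (1 / 2 : ℝ) * (64 / f * L ^ (W + J + 3)) ≤ (X : ℝ) ^ (1 / 2 : ℝ) * (X : ℝ) ^ (1 / 2 : ℝ) := by gcongr
          _ = X := g1
          _ ≤ _ := hXx
      have g3 : (X : ℝ) ^ (1 / 2 : ℝ) * (16 / f * L ^ 3) ≤ x := by
        have g4 : ((X : ℝ) ^ (1 / 2 : ℝ) * (16 / f * L ^ 3)) * (4 * L ^ (W + J)) ≤ x * (4 * L ^ (W + J)) := by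
          calc ((X : ℝ) ^ (1 / 2 : ℝ) * (16 / f * L ^ 3)) * (4 * L ^ (W + J)) =
              (X : ℝ) ^ (1 / 2 : ℝ) * (64 / f * L ^ (W + J + 3)) := by rw [pow_add L (W + J) 3]; ring
            _ ≤ _ := g2
            _ = _ := by ring
        exact le_of_mul_le_mul_right g4 (by positivity)
      calc l * (2 * √(N : ℝ) * l) ≤ L * (2 * (X : ℝ) ^ (1 / 2 : ℝ) * L) := by gcongr
        _ = f / 8 * (((X : ℝ) ^ (1 / 2 : ℝ) * (16 / f * L ^ 3)) / L) := by field_simp; ring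
        _ ≤ f / 8 * (x / L) := by gcongr
    have d6 : f / 4 * (x / L) ≤ ∑ n ∈ Icc 1 N, fw n * lamP ((N : ℤ) - m * n) := by
      have g1 : f * x / L = f * (x / L) := by ring
      rw [g1] at c5
      have g2 : 0 < f * (x / L) := by positivity
      linarith
    -- the number of the terms
    have d7 : ∑ n ∈ Icc 1 N, fw n * lamP ((N : ℤ) - m * n) ≤ l ^ 2 *
        (((Icc 1 N).filter (fun q : ℕ => q.Prime ∧ Good ((N : ℝ) ^ (999 / 5000 : ℝ)) q ∧
          ((N : ℤ) - m * q).toNat.Prime)).card : ℝ) := by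
      rw [← sum_filter_add_sum_filter_not (Icc 1 N) (fun q : ℕ => q.Prime ∧ Good ((N : ℝ) ^ (999 / 5000 : ℝ)) q ∧
          ((N : ℤ) - m * q).toNat.Prime)]
      have g1 : ∑ n ∈ (Icc 1 N).filter (fun q : ℕ => ¬ (q.Prime ∧ Good ((N : ℝ) ^ (999 / 5000 : ℝ)) q ∧
          ((N : ℤ) - m * q).toNat.Prime)), fw n * lamP ((N : ℤ) - m * n) = 0 := by
        apply sum_eq_zero
        intro n hn
        rw [mem_filter] at hn
        by_cases h1 : n.Prime
        · by_cases h2 : Good ((X : ℝ) ^ (999 / 5000 : ℝ)) n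
          · by_cases h3 : ((N : ℤ) - m * n).toNat.Prime
            · exfalso
              apply hn.2
              refine ⟨h1, ⟨h2.1, fun ℓ hℓ hd => ?_⟩, h3⟩
              refine le_trans ?_ (h2.2 ℓ hℓ hd)
              exact Real.rpow_le_rpow hN0.le hN2r (by norm_num)
            · unfold lamP
              rw [if_neg h3, mul_zero]
          · rw [hfw]
            simp only
            rw [if_neg h2, zero_mul]
        · rw [hfw]
          simp only
          rw [lamP_nat, if_neg h1]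
          split_ifs <;> simp
      rw [g1, add_zero]
      have g2 : ∀ n ∈ (Icc 1 N).filter (fun q : ℕ => q.Prime ∧ Good ((N : ℝ) ^ (999 / 5000 : ℝ)) q ∧
          ((N : ℤ) - m * q).toNat.Prime), fw n * lamP ((N : ℤ) - m * n) ≤ l ^ 2 := by
        intro n hn
        rw [mem_filter, mem_Icc] at hn
        rw [pow_two]
        apply mul_le_mul _ _ (lamP_nonneg _) hl0.le
        · rw [hl]
          exact hfwN n N hn.1.2
        · rw [hl]
          apply lamP_le_log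
          have : (0 : ℤ) ≤ m * n := by positivity
          linarith
      refine (sum_le_sum g2).trans (le_of_eq ?_)
      rw [sum_const, nsmul_eq_mul, mul_comm]
    obtain ⟨K, hK⟩ : ∃ K : ℝ, K = (((Icc 1 N).filter (fun q : ℕ => q.Prime ∧ Good ((N : ℝ) ^ (999 / 5000 : ℝ)) q ∧
          ((N : ℤ) - m * q).toNat.Prime)).card : ℝ) := ⟨_, rfl⟩
    have d8 : f / 4 * (x / L) ≤ l ^ 2 * K := by
      rw [hK]
      exact d6.trans d7
    have d9 : f / 32 * N / (m * l ^ 3) ≤ K := by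
      rw [div_le_iff₀ (by positivity)]
      have g1 : f / 32 * (N : ℝ) = f / 8 * m * x := by rw [← hxN]; ring
      rw [g1]
      have g2 : x / (2 * l) ≤ x / L := by gcongr
      have g3 : f / 4 * (x / (2 * l)) ≤ l ^ 2 * K := le_trans (by gcongr) d8
      have g4 : f / 4 * (x / (2 * l)) * (m * l) ≤ l ^ 2 * K * (m * l) := by gcongr
      have g5 : f / 4 * (x / (2 * l)) * (m * l) = f / 8 * m * x := by field_simp; ring
      rw [g5] at g4
      calc f / 8 * m * x ≤ l ^ 2 * K * (m * l) := g4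
        _ = K * (m * l ^ 3) := by ring
    rw [hK] at d9
    convert d9 using 1

end Pool.Agent.D0H63.FP
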