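import Pool.Agent.D0H63.FP.Cls
import Pool.Agent.H373R2.T7.TupleMain

/-! The total error of the sieve, by the theorem of Bombieri and Vinogradov. -/

set_option autoImplicit false

namespace Pool.Agent.D0H63.FP
open Finset Filter
open Pool.Agent.H378R2 (Phi EPhi LPhi)

lemma exists_cls (X : ℝ) (d : ℕ) (hd : 1 ≤ d) :
    ∃ b : ℕ, b.Coprime d ∧ ∀ b' < d, b'.Coprime d → |EPhi X d b'| ≤ |EPhi X d b| := by
  classical
  have hne : ((range d).filter (fun b => b.Coprime d)).Nonempty := by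
    rcases Nat.lt_or_ge 1 d with h | h
    · exact ⟨1, mem_filter.2 ⟨mem_range.2 h, Nat.coprime_one_left d⟩⟩
    · have h1 : d = 1 := by omega
      subst h1
      exact ⟨0, mem_filter.2 ⟨mem_range.2 (by norm_num), Nat.coprime_one_right 0⟩⟩
  obtain ⟨b, hb, hmax⟩ := exists_max_image _ (fun b => |EPhi X d b|) hne
  rw [mem_filter] at hb
  refine ⟨b, hb.2, fun b' hb' hc => ?_⟩
  exact hmax b' (mem_filter.2 ⟨mem_range.2 hb', hc⟩)

theorem err (θ : ℝ) (hθ0 : 0 < θ) (hθ : θ < 1 / 2) (A : ℕ) : ∀ᶠ X : ℝ in atTop, ∀ (z m N : ℕ)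
    (P : Finset ℕ), (∀ p ∈ P, p.Prime) → ∀ (C0 : ℝ) (c : Finset ℕ → ℝ), 0 ≤ C0 → (∀ T, |c T| ≤ C0) →
    (∀ T ⊆ P, c T ≠ 0 → ((∏ p ∈ T, p : ℕ) : ℝ) ≤ X ^ θ) → (∀ p ∈ P, rb z m N p ≤ 3) →
    |∑ T ∈ P.powerset, c T * (ST z m N X T - LPhi X * ∏ p ∈ T, ((rb z m N p : ℝ) / ((p : ℝ) - 1)))| ≤
      C0 * (X / Real.log X ^ A) := by
  classical
  filter_upwards [Pool.Agent.H362R2.QT.BV θ hθ0 hθ 1 A, eventually_ge_atTop 3] with X hX hX3
  intro z m N P hP C0 c hC0 hc hsupp hr
  have hl1 : 1 ≤ Real.log X := by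
    rw [Real.le_log_iff_exp_le (by linarith)]
    linarith [Real.exp_one_lt_d9]
  have hex : ∀ d : ℕ, ∃ b : ℕ, 1 ≤ d →
      b.Coprime d ∧ ∀ b' < d, b'.Coprime d → |EPhi X d b'| ≤ |EPhi X d b| := by
    intro d
    rcases Nat.eq_zero_or_pos d with h | h
    · exact ⟨0, fun h' => by omega⟩
    · obtain ⟨b, hb⟩ := exists_cls X d h
      exact ⟨b, fun _ => hb⟩
  choose Bc hBc using hex
  have key := hX 1 squarefree_one (by
    rw [Nat.cast_one]
    exact one_le_pow₀ hl1) Bc (fun q hq => by rw [one_mul]; exact (hBc q hq).1)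
  unfold Pool.Agent.H362R2.QT.BVt at key
  have hprim : ∀ T ∈ P.powerset, ∀ p ∈ T, p.Prime := fun T hT p hp => hP p (mem_powerset.1 hT hp)
  have h1 : ∀ T ∈ P.powerset, |c T * (ST z m N X T - LPhi X * ∏ p ∈ T, ((rb z m N p : ℝ) / ((p : ℝ) - 1)))| ≤
      if c T ≠ 0 then C0 * (((∏ p ∈ T, p).divisors.card : ℝ) ^ (2 * 1) *
        |EPhi X (1 * ∏ p ∈ T, p) (Bc (∏ p ∈ T, p))|) else 0 := by
    intro T hT
    by_cases hcT : c T = 0
    · rw [hcT, zero_mul, abs_zero, if_neg (by simp)]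
    · rw [if_pos hcT, abs_mul]
      have hTp := hprim T hT
      have hd1 : 1 ≤ ∏ p ∈ T, p := Finset.prod_pos fun p hp => (hTp p hp).pos
      apply mul_le_mul (hc T) _ (abs_nonneg _) hC0
      rw [ST_eq z m N X T hTp, one_mul]
      refine (abs_sum_le_sum_abs _ _).trans ?_
      calc ∑ b ∈ RT z m N T, |EPhi X (∏ p ∈ T, p) b| ≤
          ∑ _b ∈ RT z m N T, |EPhi X (∏ p ∈ T, p) (Bc (∏ p ∈ T, p))| := by
            apply sum_le_sum
            intro b hb
            obtain ⟨h2, h3⟩ := RT_cop z m N T hTp b hb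
            exact (hBc _ hd1).2 b h2 h3
        _ = ((RT z m N T).card : ℝ) * |EPhi X (∏ p ∈ T, p) (Bc (∏ p ∈ T, p))| := by
            rw [sum_const, nsmul_eq_mul]
        _ ≤ _ := by
            apply mul_le_mul_of_nonneg_right _ (abs_nonneg _)
            rw [RT_card z m N T hTp]
            have hsq : Squarefree (∏ p ∈ T, p) := sqf_prod T hTp
            rw [Pool.Agent.H387R2.MB.card_div_sqf hsq, Pool.Agent.H373R2.T7.primeFactors_prod' T hTp]
            push_cast
            rw [← pow_mul, mul_comm T.card 2, pow_mul]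
            norm_num
            calc ∏ p ∈ T, (rb z m N p : ℝ) ≤ ∏ _p ∈ T, (4 : ℝ) := by
                  apply prod_le_prod (fun _ _ => Nat.cast_nonneg _)
                  intro p hp
                  have h4 := hr p (mem_powerset.1 hT hp)
                  have h5 : (rb z m N p : ℝ) ≤ 3 := by exact_mod_cast h4
                  linarith
              _ = (4 : ℝ) ^ T.card := by rw [prod_const]
  refine (abs_sum_le_sum_abs _ _).trans ((sum_le_sum h1).trans ?_)
  rw [← sum_filter, ← mul_sum]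
  apply mul_le_mul_of_nonneg_left _ hC0
  refine le_trans ?_ key
  rw [← sum_image (f := fun d : ℕ => (d.divisors.card : ℝ) ^ (2 * 1) * |EPhi X (1 * d) (Bc d)|)
    (g := fun T : Finset ℕ => ∏ p ∈ T, p) (s := P.powerset.filter (fun T => c T ≠ 0))]
  · apply sum_le_sum_of_subset_of_nonneg
    · intro d hd
      rw [mem_image] at hd
      obtain ⟨T, hT, rfl⟩ := hd
      rw [mem_filter] at hT
      have hTp := hprim T hT.1
      have hd1 : 1 ≤ ∏ p ∈ T, p := Finset.prod_pos fun p hp => (hTp p hp).pos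
      rw [mem_filter, mem_Icc]
      refine ⟨⟨hd1, ?_⟩, ?_, Nat.coprime_one_right _⟩
      · apply Nat.le_floor
        exact hsupp T (mem_powerset.1 hT.1) hT.2
      · exact sqf_prod T hTp
    · intro d _ _
      positivity
  · intro T hT T' hT' hTT
    rw [mem_coe, mem_filter] at hT hT'
    simp only at hTT
    have e1 := Pool.Agent.H373R2.T7.primeFactors_prod' T (hprim T hT.1)
    have e2 := Pool.Agent.H373R2.T7.primeFactors_prod' T' (hprim T' hT'.1)
    rw [← e1, ← e2, hTT]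

end Pool.Agent.D0H63.FP
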