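import Pool.Agent.D0H63.FP.Err
import Pool.Agent.Y882.MG.Quad2

/-! The lower bound of the weighted sieve for the primes. -/

set_option autoImplicit false

namespace Pool.Agent.D0H63.FP
open Finset Filter Polynomial
open Pool.Agent.H378R2 (Phi EPhi LPhi)
open Pool.Agent.Y882 (PZ VV tt_lt)
open Pool.Agent.Y882.PX (ro ro_eq)
open Pool.Agent.Y882.KW (WW core3 WW_le_one)
open Pool.Agent.Y882.SI (QF QF_eval ro_quad_le mer_quad)
open Pool.Agent.W23.DC (pr tt Mer)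

lemma rb_le_sub (z m N p : ℕ) : rb z m N p ≤ p - 1 := by
  classical
  unfold rb
  have h : (range p).filter (fun a => Bad z m N p a) ⊆ Ico 1 p := by
    intro r hr
    rw [mem_filter, mem_range] at hr
    rw [mem_Ico]
    refine ⟨?_, hr.1⟩
    rcases Nat.eq_zero_or_pos r with h | h
    · exact absurd (h ▸ dvd_zero _) hr.2.1
    · exact h
  refine (card_le_card h).trans ?_
  simp

lemma lin_le_one (m N p : ℕ) (hp : p.Prime) (hc : N.Coprime m) :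
    ((range p).filter (fun a : ℕ => (p : ℤ) ∣ (N : ℤ) - m * a)).card ≤ 1 := by
  rw [card_le_one]
  intro a ha b hb
  rw [mem_filter, mem_range] at ha hb
  have hpZ : Prime (p : ℤ) := Nat.prime_iff_prime_int.1 hp
  have h1 : (p : ℤ) ∣ (m : ℤ) * ((b : ℤ) - a) := by
    have := dvd_sub ha.2 hb.2
    have e : ((N : ℤ) - m * a) - ((N : ℤ) - m * b) = (m : ℤ) * ((b : ℤ) - a) := by ring
    rwa [e] at this
  rcases hpZ.dvd_or_dvd h1 with h | h
  · exfalso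
    have h2 : (p : ℤ) ∣ (N : ℤ) := by
      have := dvd_add ha.2 (h.mul_right (a : ℤ))
      have e : ((N : ℤ) - m * a) + (m : ℤ) * a = N := by ring
      rwa [e] at this
    exact Nat.Prime.not_coprime_iff_dvd.2 ⟨p, hp, by exact_mod_cast h2, by exact_mod_cast h⟩ hc
  · have h2 : |(b : ℤ) - a| < p := by
      rw [abs_lt]
      constructor <;> omega
    have h3 := Int.eq_zero_of_abs_lt_dvd h h2
    omega

lemma QF2 (a : ℕ) (p : ℕ) : (p : ℤ) ∣ (QF (-2)).eval (a : ℤ) + 0 ↔ (p : ℤ) ∣ (a : ℤ) ^ 2 - 2 := by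
  rw [QF_eval, add_zero]
  rfl

lemma rb_le_add (z m N p : ℕ) (hp : p.Prime) (hc : N.Coprime m) :
    rb z m N p ≤ ro (QF (-2)) 0 p + (if p ≤ z then 1 else 0) := by
  classical
  rw [ro_eq]
  unfold rb
  by_cases hz : p ≤ z
  · rw [if_pos hz]
    have h1 : (range p).filter (fun a => Bad z m N p a) ⊆
        (range p).filter (fun a : ℕ => (p : ℤ) ∣ (QF (-2)).eval (a : ℤ) + 0) ∪
        (range p).filter (fun a : ℕ => (p : ℤ) ∣ (N : ℤ) - m * a) := by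
      intro a ha
      rw [mem_filter] at ha
      rw [mem_union, mem_filter, mem_filter, QF2]
      rcases ha.2.2 with h | h
      · exact Or.inl ⟨ha.1, h⟩
      · exact Or.inr ⟨ha.1, h.2⟩
    exact ((card_le_card h1).trans (card_union_le _ _)).trans
      (Nat.add_le_add_left (lin_le_one m N p hp hc) _)
  · rw [if_neg hz, add_zero]
    apply card_le_card
    intro a ha
    rw [mem_filter] at ha ⊢
    rw [QF2]
    rcases ha.2.2 with h | h
    · exact ⟨ha.1, h⟩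
    · exact absurd h.1 hz

lemma rb_le_three (z m N p : ℕ) (hp : p.Prime) (hc : N.Coprime m) : rb z m N p ≤ 3 := by
  have h1 := rb_le_add z m N p hp hc
  have h2 := ro_quad_le (-2) p hp
  split_ifs at h1 <;> omega

lemma rb_eq (z m N p : ℕ) (hp : p.Prime) (h3 : 3 ≤ p) (hz : z < p) :
    rb z m N p = ro (QF (-2)) 0 p := by
  classical
  rw [ro_eq]
  unfold rb
  congr 1
  apply filter_congr
  intro a _
  rw [QF2]
  constructor
  · intro h
    rcases h.2 with h | h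
    · exact h
    · omega
  · intro h
    refine ⟨fun hd => ?_, Or.inl h⟩
    have h4 : (p : ℤ) ∣ (a : ℤ) := by exact_mod_cast hd
    have h5 : (p : ℤ) ∣ 2 := by
      have h6 : (p : ℤ) ∣ (a : ℤ) ^ 2 := dvd_pow h4 (by norm_num)
      have := dvd_sub h6 h
      have e : (a : ℤ) ^ 2 - ((a : ℤ) ^ 2 - 2) = 2 := by ring
      rwa [e] at this
    have h6 : p ∣ 2 := by exact_mod_cast h5
    have := Nat.le_of_dvd (by norm_num) h6
    omega

/-- the correction of the densities -/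
lemma corr (A B : ℕ) (hA : 1 ≤ A) (S : Finset ℕ) (hS : S ⊆ Ioc A B) :
    ∑ p ∈ S, (1 / ((p : ℝ) - 1) - 1 / (p : ℝ)) ≤ 1 / (A : ℝ) := by
  have hA0 : (0 : ℝ) < A := by exact_mod_cast hA
  have h1 : ∑ p ∈ S, (1 / ((p : ℝ) - 1) - 1 / (p : ℝ)) ≤ ∑ p ∈ Ioc A B, (1 / ((p : ℝ) - 1) - 1 / (p : ℝ)) := by
    apply sum_le_sum_of_subset_of_nonneg hS
    intro p hp _
    rw [mem_Ioc] at hp
    have h2 : (1 : ℝ) < p := by exact_mod_cast (by omega : 1 < p)
    rw [sub_nonneg]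
    exact one_div_le_one_div_of_le (by linarith) (by linarith)
  refine h1.trans ?_
  rcases Nat.lt_or_ge B A with h | h
  · rw [Ioc_eq_empty (by omega), sum_empty]
    positivity
  have key : ∀ B, A ≤ B → ∑ p ∈ Ioc A B, (1 / ((p : ℝ) - 1) - 1 / (p : ℝ)) = 1 / (A : ℝ) - 1 / (B : ℝ) := by
    intro B hB
    induction B, hB using Nat.le_induction with
    | base => simp
    | succ n hn ih =>
      rw [sum_Ioc_succ_top hn, ih]
      push_cast
      ring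
  rw [key B h]
  have : (0 : ℝ) ≤ 1 / (B : ℝ) := by positivity
  linarith

theorem mer_rb (ε₁ υ η : ℝ) (hε : 0 < ε₁) (hυ : υ ≤ 1) (hη : 0 < η) : ∃ Y0 : ℕ, ∀ Y : ℕ, Y0 ≤ Y →
    ∀ z m N : ℕ, (z : ℝ) < (Y : ℝ) ^ ε₁ →
      Mer (pr Y ε₁ υ) (tt Y) (fun p => (rb z m N p : ℝ) / ((p : ℝ) - 1)) ε₁ υ η := by
  classical
  obtain ⟨Y1, h1⟩ := mer_quad (-2) (by
    rintro ⟨r, hr⟩
    have h2 : r * r = 2 := by linarith
    have h3 : r.natAbs * r.natAbs = 2 := by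
      rw [← Int.natAbs_mul, h2]
      rfl
    have h4 : r.natAbs ≤ 1 ∨ 2 ≤ r.natAbs := by omega
    rcases h4 with h4 | h4
    · have := Nat.mul_le_mul h4 h4
      omega
    · have := Nat.mul_le_mul h4 h4
      omega) ε₁ υ (η / 2) hε hυ (by linarith)
  have ev1 : ∀ᶠ Y : ℕ in atTop, 4 / η + 4 ≤ (Y : ℝ) ^ ε₁ :=
    ((tendsto_rpow_atTop hε).comp tendsto_natCast_atTop_atTop).eventually_ge_atTop _
  obtain ⟨Y2, hY2⟩ := eventually_atTop.1 (ev1.and (eventually_ge_atTop 3))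
  refine ⟨max Y1 Y2, fun Y hY z m N hz => ?_⟩
  obtain ⟨e1, e2⟩ := hY2 Y ((le_max_right _ _).trans hY)
  have h1' := h1 Y ((le_max_left _ _).trans hY)
  intro a b ha hab hb
  have h2 := h1' a b ha hab hb
  have hηp : 0 < 4 / η := by positivity
  have hmem : ∀ p ∈ (pr Y ε₁ υ).filter (fun p => a ≤ tt Y p ∧ tt Y p < b), p.Prime ∧
      (Y : ℝ) ^ ε₁ ≤ p ∧ p ≤ Y := by
    intro p hp
    rw [mem_filter] at hp
    have hp1 := hp.1
    unfold pr at hp1
    rw [mem_filter, mem_Icc] at hp1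
    refine ⟨hp1.2.1, ?_, hp1.1.2⟩
    by_contra h6
    push Not at h6
    have := (tt_lt Y p ε₁ (by omega) hp1.2.1.pos).2 h6
    linarith [hp1.2.2.1]
  obtain ⟨A, hA⟩ : ∃ A, A = ⌈(Y : ℝ) ^ ε₁⌉₊ - 1 := ⟨_, rfl⟩
  have hc1 : 1 ≤ ⌈(Y : ℝ) ^ ε₁⌉₊ := Nat.ceil_pos.2 (by linarith)
  have hAr : (Y : ℝ) ^ ε₁ - 1 ≤ A := by
    rw [hA, Nat.cast_sub hc1]
    push_cast
    linarith [Nat.le_ceil ((Y : ℝ) ^ ε₁)]
  have hA1 : 1 ≤ A := by
    have : (1 : ℝ) ≤ A := by linarith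
    exact_mod_cast this
  have hsub : (pr Y ε₁ υ).filter (fun p => a ≤ tt Y p ∧ tt Y p < b) ⊆ Ioc A Y := by
    intro p hp
    obtain ⟨h3, h4, h5⟩ := hmem p hp
    rw [mem_Ioc]
    refine ⟨?_, h5⟩
    have h6 : ⌈(Y : ℝ) ^ ε₁⌉₊ ≤ p := Nat.ceil_le.2 h4
    omega
  have hcor := corr A Y hA1 _ hsub
  have hdiff : ∑ p ∈ (pr Y ε₁ υ).filter (fun p => a ≤ tt Y p ∧ tt Y p < b), (rb z m N p : ℝ) / ((p : ℝ) - 1) =
      ∑ p ∈ (pr Y ε₁ υ).filter (fun p => a ≤ tt Y p ∧ tt Y p < b), (ro (QF (-2)) 0 p : ℝ) / p +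
      ∑ p ∈ (pr Y ε₁ υ).filter (fun p => a ≤ tt Y p ∧ tt Y p < b),
        (ro (QF (-2)) 0 p : ℝ) * (1 / ((p : ℝ) - 1) - 1 / (p : ℝ)) := by
    rw [← sum_add_distrib]
    apply sum_congr rfl
    intro p hp
    obtain ⟨h3, h4, h5⟩ := hmem p hp
    have h6 : (4 : ℝ) ≤ p := by linarith
    have h7 : 4 ≤ p := by exact_mod_cast h6
    have h8 : z < p := by
      have : (z : ℝ) < p := by linarith
      exact_mod_cast this
    rw [rb_eq z m N p h3 (by omega) h8]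
    ring
  have hpos : ∀ p ∈ (pr Y ε₁ υ).filter (fun p => a ≤ tt Y p ∧ tt Y p < b),
      0 ≤ 1 / ((p : ℝ) - 1) - 1 / (p : ℝ) := by
    intro p hp
    obtain ⟨h3, h4, h5⟩ := hmem p hp
    have h6 : (4 : ℝ) ≤ p := by linarith
    rw [sub_nonneg]
    exact one_div_le_one_div_of_le (by linarith) (by linarith)
  have hlow : 0 ≤ ∑ p ∈ (pr Y ε₁ υ).filter (fun p => a ≤ tt Y p ∧ tt Y p < b),
        (ro (QF (-2)) 0 p : ℝ) * (1 / ((p : ℝ) - 1) - 1 / (p : ℝ)) :=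
    sum_nonneg fun p hp => mul_nonneg (Nat.cast_nonneg _) (hpos p hp)
  have hup : ∑ p ∈ (pr Y ε₁ υ).filter (fun p => a ≤ tt Y p ∧ tt Y p < b),
        (ro (QF (-2)) 0 p : ℝ) * (1 / ((p : ℝ) - 1) - 1 / (p : ℝ)) ≤ η / 2 := by
    calc _ ≤ ∑ p ∈ (pr Y ε₁ υ).filter (fun p => a ≤ tt Y p ∧ tt Y p < b),
          2 * (1 / ((p : ℝ) - 1) - 1 / (p : ℝ)) := by
            apply sum_le_sum
            intro p hp
            apply mul_le_mul_of_nonneg_right _ (hpos p hp)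
            exact_mod_cast ro_quad_le (-2) p (hmem p hp).1
      _ ≤ 2 * (1 / (A : ℝ)) := by
            rw [← mul_sum]
            linarith
      _ ≤ η / 2 := by
            have h3 : 4 / η ≤ A := by linarith
            have hA0 : (0 : ℝ) < A := by linarith
            rw [div_le_iff₀ hη] at h3
            rw [mul_one_div, div_le_div_iff₀ hA0 (by norm_num)]
            linarith
  rw [hdiff]
  rw [abs_le] at h2 ⊢
  constructor <;> linarith [h2.1, h2.2]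

open Classical in
/-- the product of the primes which exclude `n` -/
noncomputable def av (P : Finset ℕ) (z m N n : ℕ) : ℕ := ∏ p ∈ P.filter (fun p => Bad z m N p n), p

lemma dvd_av (P : Finset ℕ) (hP : ∀ p ∈ P, p.Prime) (z m N n p : ℕ) (hp : p ∈ P) :
    p ∣ av P z m N n ↔ Bad z m N p n := by
  classical
  unfold av
  rw [Prime.dvd_finsetProd_iff (hP p hp).prime]
  constructor
  · rintro ⟨q, hq, hpq⟩
    rw [mem_filter] at hq
    have := (Nat.prime_dvd_prime_iff_eq (hP p hp) (hP q hq.1)).1 hpq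
    rw [this]
    exact hq.2
  · intro h
    exact ⟨p, mem_filter.2 ⟨hp, h⟩, dvd_rfl⟩

open Classical in
theorem low (τ ζ υ lam τ' θ : ℝ) (hζ : 0 < ζ) (h2 : 2 * ζ < τ) (h4 : τ ≤ 4 * ζ)
    (hτ : τ ≤ 1) (hζυ : ζ ≤ υ) (hυτ : υ < τ) (hlam : 0 < lam)
    (hJ0 : ∫ x in ζ..υ, (lam - lam / υ * x) / (τ - x) / x < Real.log (τ / ζ - 1) / τ)
    (h5 : τ < τ') (h6 : τ' < θ) (hθ : θ < 1 / 2) :
    ∃ ε₁ f : ℝ, 0 < ε₁ ∧ ε₁ ≤ ζ ∧ 0 < f ∧ ∀ A : ℕ, ∃ Y0 : ℕ, ∀ Y : ℕ, Y0 ≤ Y → ∀ X : ℝ,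
      (Y : ℝ) ^ (τ' / θ) ≤ X → ∀ z m N : ℕ, (z : ℝ) < (Y : ℝ) ^ ε₁ → N.Coprime m →
      f * LPhi X * ∏ p ∈ PZ Y ε₁, (1 - (rb z m N p : ℝ) / ((p : ℝ) - 1)) -
          5 * Real.log Y * (X / Real.log X ^ A) ≤
        ∑ n ∈ Icc 1 ⌊3 * X⌋₊, Phi (n / X) * ArithmeticFunction.vonMangoldt n *
          (if 0 < WW Y ζ υ lam (lam / υ) (av (PZ Y υ) z m N n) then 1 else 0) := by
  have hυ0 : 0 < υ := by linarith
  have hθ0 : 0 < θ := by linarith
  have hbυ : lam / υ * υ = lam := div_mul_cancel₀ _ hυ0.ne'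
  obtain ⟨ε₁, η, f, hε₁, hε₁ζ, _, hη, hf, Y1, HC⟩ :=
    core3 3 τ ζ υ lam (lam / υ) τ' 1 hζ h2 h4 hτ hζυ hυτ hlam.le (by positivity) hbυ.le hJ0 h5 one_pos
  obtain ⟨Y2, HM⟩ := mer_rb ε₁ υ η hε₁ (by linarith) hη
  have hr0 : 0 < τ' / θ := div_pos (by linarith) hθ0
  refine ⟨ε₁, f, hε₁, hε₁ζ, hf, fun A => ?_⟩
  obtain ⟨X0, HE⟩ := eventually_atTop.1 (err θ hθ0 hθ A)
  have ev1 : ∀ᶠ Y : ℕ in atTop, max X0 1 ≤ (Y : ℝ) ^ (τ' / θ) :=
    ((tendsto_rpow_atTop hr0).comp tendsto_natCast_atTop_atTop).eventually_ge_atTop _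
  obtain ⟨Y3, hY3⟩ := eventually_atTop.1 (ev1.and (eventually_ge_atTop 3))
  refine ⟨max Y1 (max Y2 Y3), fun Y hY X hX z m N hz hc => ?_⟩
  have hYY1 : Y1 ≤ Y := (le_max_left _ _).trans hY
  have hYY2 : Y2 ≤ Y := ((le_max_left _ _).trans (le_max_right _ _)).trans hY
  obtain ⟨e1, e3⟩ := hY3 Y (((le_max_right _ _).trans (le_max_right _ _)).trans hY)
  have hYr : (3 : ℝ) ≤ Y := by exact_mod_cast e3
  have hY0 : (0 : ℝ) < Y := by linarith
  have hX1 : 1 ≤ X := ((le_max_right _ _).trans e1).trans hX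
  have hXX0 : X0 ≤ X := ((le_max_left _ _).trans e1).trans hX
  have hX0' : 0 < X := by linarith
  obtain ⟨c, hcL, hcD, hcN, hcV⟩ := HC Y hYY1
  have hPZ : ∀ w : ℝ, ∀ p ∈ PZ Y w, p.Prime := by
    intro w p hp
    unfold PZ at hp
    rw [mem_filter] at hp
    exact hp.2.1
  have hlY : 0 ≤ Real.log Y := Real.log_nonneg (by linarith)
  have herr := HE X hXX0 z m N (PZ Y υ) (hPZ υ) (5 * Real.log Y) c (by positivity) hcL (by
    intro T hT hcT
    refine (hcD T hT hcT).trans ?_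
    calc (Y : ℝ) ^ τ' = ((Y : ℝ) ^ (τ' / θ)) ^ θ := by
          rw [← Real.rpow_mul hY0.le, div_mul_cancel₀ _ hθ0.ne']
      _ ≤ X ^ θ := Real.rpow_le_rpow (by positivity) hX hθ0.le)
    (fun p hp => rb_le_three z m N p (hPZ υ p hp) hc)
  have hmain := hcV (fun p => (rb z m N p : ℝ) / ((p : ℝ) - 1)) (by
    intro p hp
    have : (1 : ℝ) < p := by exact_mod_cast (hPZ υ p hp).one_lt
    apply div_nonneg (Nat.cast_nonneg _)
    linarith) (by
    intro p hp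
    have hpp := hPZ ε₁ p hp
    have h1 : (1 : ℝ) < p := by exact_mod_cast hpp.one_lt
    have h3 := rb_le_sub z m N p
    have h4 : (rb z m N p : ℝ) ≤ ((p - 1 : ℕ) : ℝ) := by exact_mod_cast h3
    rw [Nat.cast_sub hpp.one_le] at h4
    push_cast at h4
    show (rb z m N p : ℝ) / ((p : ℝ) - 1) ≤ 1
    rw [div_le_one (by linarith)]
    exact h4) (by
    intro p hp _
    have hpp := hPZ ε₁ p hp
    have h1 : (1 : ℝ) < p := by exact_mod_cast hpp.one_lt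
    have h3 : (rb z m N p : ℝ) ≤ ((3 : ℕ) : ℝ) := by exact_mod_cast rb_le_three z m N p hpp hc
    show (rb z m N p : ℝ) / ((p : ℝ) - 1) ≤ ((3 : ℕ) : ℝ) / ((p : ℝ) - 1)
    exact div_le_div_of_nonneg_right h3 (by linarith)) (HM Y hYY2 z m N hz)
  -- the sieve inequality
  have hLam : ∀ n : ℕ, 0 ≤ Phi (n / X) * ArithmeticFunction.vonMangoldt n := fun n =>
    mul_nonneg (le_max_left _ _) ArithmeticFunction.vonMangoldt_nonneg
  have hLPhi : 0 ≤ LPhi X := sum_nonneg fun n _ => hLam n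
  have hs1 : ∑ n ∈ Icc 1 ⌊3 * X⌋₊, Phi (n / X) * ArithmeticFunction.vonMangoldt n *
        VV (PZ Y υ) c (fun p => if p ∣ av (PZ Y υ) z m N n then 1 else 0) =
      ∑ T ∈ (PZ Y υ).powerset, c T * ST z m N X T := by
    unfold VV ST
    simp_rw [mul_sum]
    rw [sum_comm]
    apply sum_congr rfl
    intro T hT
    rw [sum_filter]
    apply sum_congr rfl
    intro n _
    rw [mem_powerset] at hT
    have e1 : ∏ p ∈ T, (if p ∣ av (PZ Y υ) z m N n then (1 : ℝ) else 0) =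
        if ∀ p ∈ T, Bad z m N p n then 1 else 0 := by
      split_ifs with h
      · apply prod_eq_one
        intro p hp
        rw [if_pos ((dvd_av _ (hPZ υ) z m N n p (hT hp)).2 (h p hp))]
      · push Not at h
        obtain ⟨p, hp, hb⟩ := h
        apply prod_eq_zero hp
        rw [if_neg (fun h' => hb ((dvd_av _ (hPZ υ) z m N n p (hT hp)).1 h'))]
    rw [e1]
    split_ifs <;> ring
  have hs2 : ∑ n ∈ Icc 1 ⌊3 * X⌋₊, Phi (n / X) * ArithmeticFunction.vonMangoldt n *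
        VV (PZ Y υ) c (fun p => if p ∣ av (PZ Y υ) z m N n then 1 else 0) ≤
      ∑ n ∈ Icc 1 ⌊3 * X⌋₊, Phi (n / X) * ArithmeticFunction.vonMangoldt n *
          (if 0 < WW Y ζ υ lam (lam / υ) (av (PZ Y υ) z m N n) then 1 else 0) := by
    apply sum_le_sum
    intro n _
    apply mul_le_mul_of_nonneg_left _ (hLam n)
    refine (hcN _).trans ?_
    split_ifs with h
    · exact WW_le_one Y ζ υ lam (lam / υ) (by positivity) hbυ.le _
    · exact not_lt.1 h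
  have hs3 : ∑ T ∈ (PZ Y υ).powerset, c T * ST z m N X T =
      LPhi X * VV (PZ Y υ) c (fun p => (rb z m N p : ℝ) / ((p : ℝ) - 1)) +
      ∑ T ∈ (PZ Y υ).powerset, c T * (ST z m N X T - LPhi X * ∏ p ∈ T, ((rb z m N p : ℝ) / ((p : ℝ) - 1))) := by
    unfold VV
    rw [mul_sum, ← sum_add_distrib]
    apply sum_congr rfl
    intro T _
    ring
  have h7 := mul_le_mul_of_nonneg_left hmain hLPhi
  have h8 := (abs_le.1 herr).1
  calc f * LPhi X * ∏ p ∈ PZ Y ε₁, (1 - (rb z m N p : ℝ) / ((p : ℝ) - 1)) -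
          5 * Real.log Y * (X / Real.log X ^ A) =
        LPhi X * (f * ∏ p ∈ PZ Y ε₁, (1 - (rb z m N p : ℝ) / ((p : ℝ) - 1))) +
          -(5 * Real.log Y * (X / Real.log X ^ A)) := by ring
    _ ≤ LPhi X * VV (PZ Y υ) c (fun p => (rb z m N p : ℝ) / ((p : ℝ) - 1)) +
      ∑ T ∈ (PZ Y υ).powerset, c T * (ST z m N X T - LPhi X * ∏ p ∈ T, ((rb z m N p : ℝ) / ((p : ℝ) - 1))) :=
        add_le_add h7 h8
    _ = _ := by rw [← hs3, ← hs1]
    _ ≤ _ := hs2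

end Pool.Agent.D0H63.FP
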