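import Pool.Agent.D0H63.FP.Low
import Pool.Agent.H373R2.T7.LamZ

/-! The local factors. -/

set_option autoImplicit false

namespace Pool.Agent.D0H63.FP
open Finset Filter Polynomial
open Pool.Agent.Y882 (PZ VV tt_lt)
open Pool.Agent.Y882.PX (ro ro_eq)
open Pool.Agent.Y882.SI (QF QF_eval ro_quad_le lo lo_quad ro_quad_two)
open Pool.Agent.W23.DC (pr tt Mer)
open Pool.Agent.H373R2.T7 (pz Vz mem_pz)

/-- the loss at a prime -/
noncomputable def kk (n : ℕ) : ℝ := if n = 3 then 3 / 4 else if 5 ≤ n then 1 - 16 / (n : ℝ) ^ 2 else 1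

lemma kk_pos (n : ℕ) : 0 < kk n ∧ kk n ≤ 1 := by
  unfold kk
  split_ifs with h1 h2
  · norm_num
  · have h3 : (5 : ℝ) ≤ n := by exact_mod_cast h2
    constructor
    · rw [sub_pos, div_lt_one (by positivity)]
      nlinarith
    · have : 0 ≤ 16 / (n : ℝ) ^ 2 := by positivity
      linarith
  · norm_num

lemma kk_prod (M : ℕ) (hM : 4 ≤ M) : (3 / 4 : ℝ) * ((((M : ℝ) + 1) * (M + 2) * (M + 3) * (M + 4)) /
    (70 * (M * (M - 1) * (M - 2) * (M - 3)))) ≤ ∏ n ∈ Icc 1 M, kk n := by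
  induction M, hM using Nat.le_induction with
  | base =>
    have e : Icc 1 4 = ({1, 2, 3, 4} : Finset ℕ) := by decide
    rw [e]
    unfold kk
    norm_num
  | succ n hn ih =>
    have hn4 : (4 : ℝ) ≤ n := by exact_mod_cast hn
    rw [prod_Icc_succ_top (by omega)]
    have h1 : kk (n + 1) = 1 - 16 / ((n + 1 : ℕ) : ℝ) ^ 2 := by
      unfold kk
      rw [if_neg (by omega), if_pos (by omega)]
    have h2 := (kk_pos (n + 1)).1.le
    refine le_trans (le_of_eq ?_) (mul_le_mul_of_nonneg_right ih h2)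
    rw [h1]
    have a1 : (n : ℝ) + 1 ≠ 0 := by positivity
    have a2 : (n : ℝ) ≠ 0 := by positivity
    have a3 : (n : ℝ) - 1 ≠ 0 := by linarith
    have a4 : (n : ℝ) - 2 ≠ 0 := by linarith
    have a5 : (n : ℝ) - 3 ≠ 0 := by linarith
    have a6 : (n : ℝ) + 1 - 1 ≠ 0 := by simpa using a2
    have a7 : (n : ℝ) + 1 - 2 ≠ 0 := by
      intro h
      apply a3
      linarith
    have a8 : (n : ℝ) + 1 - 3 ≠ 0 := by
      intro h
      apply a4
      linarith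
    push_cast
    have e1 : (n : ℝ) + 1 - 1 = n := by ring
    have e2 : (n : ℝ) + 1 - 2 = n - 1 := by ring
    have e3 : (n : ℝ) + 1 - 3 = n - 2 := by ring
    rw [e1, e2, e3]
    field_simp
    ring

lemma kk_low (M : ℕ) (hM : 4 ≤ M) : (3 / 280 : ℝ) ≤ ∏ n ∈ Icc 1 M, kk n := by
  refine le_trans ?_ (kk_prod M hM)
  have hn4 : (4 : ℝ) ≤ M := by exact_mod_cast hM
  have h1 : 0 < (M : ℝ) * (M - 1) * (M - 2) * (M - 3) := by
    have a3 : 0 < (M : ℝ) - 1 := by linarith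
    have a4 : 0 < (M : ℝ) - 2 := by linarith
    have a5 : 0 < (M : ℝ) - 3 := by linarith
    positivity
  have h2 : (M : ℝ) * (M - 1) * (M - 2) * (M - 3) ≤ ((M : ℝ) + 1) * (M + 2) * (M + 3) * (M + 4) := by
    have a3 : 0 ≤ (M : ℝ) - 1 := by linarith
    have a4 : 0 ≤ (M : ℝ) - 2 := by linarith
    have a5 : 0 ≤ (M : ℝ) - 3 := by linarith
    gcongr <;> linarith
  have h3 : (1 : ℝ) / 70 ≤ (((M : ℝ) + 1) * (M + 2) * (M + 3) * (M + 4)) / (70 * (M * (M - 1) * (M - 2) * (M - 3))) := by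
    rw [div_le_div_iff₀ (by norm_num) (by positivity)]
    linarith
  linarith

lemma rb_two (z m N : ℕ) (ho : Odd (N + m)) : rb z m N 2 = 0 := by
  classical
  unfold rb
  rw [card_eq_zero, filter_eq_empty_iff]
  intro a ha hb
  rw [mem_range] at ha
  obtain ⟨h1, h2⟩ := hb
  obtain ⟨k, hk⟩ := ho
  have ha1 : a = 1 := by
    interval_cases a
    · simp at h1
    · rfl
  subst ha1
  rcases h2 with h2 | ⟨_, h2⟩
  · norm_num at h2
  · push_cast at h2
    rw [mul_one] at h2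
    omega

lemma ro_three : ro (QF (-2)) 0 3 = 0 := by
  rw [ro_eq, card_eq_zero, filter_eq_empty_iff]
  intro a ha hb
  rw [mem_range] at ha
  rw [QF_eval, add_zero] at hb
  interval_cases a
  · norm_num at hb
  · norm_num at hb
  · norm_num at hb

/-- the inequality for the factors at the primes `p ≥ 5` -/
lemma fac5 (p ρ s r : ℕ) (hp : 5 ≤ p) (hρ : ρ ≤ 2) (hs : s ≤ 1) (hr : r ≤ ρ + s) :
    (1 - (s : ℝ) / p) * (1 - (ρ : ℝ) / p) * (1 - 16 / (p : ℝ) ^ 2) ≤ 1 - (r : ℝ) / ((p : ℝ) - 1) := by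
  have hp5 : (5 : ℝ) ≤ p := by exact_mod_cast hp
  have hp0 : (0 : ℝ) < p := by linarith
  have hp1 : (0 : ℝ) < (p : ℝ) - 1 := by linarith
  have h1 : 1 - ((ρ + s : ℕ) : ℝ) / ((p : ℝ) - 1) ≤ 1 - (r : ℝ) / ((p : ℝ) - 1) := by
    have : (r : ℝ) / ((p : ℝ) - 1) ≤ ((ρ + s : ℕ) : ℝ) / ((p : ℝ) - 1) :=
      div_le_div_of_nonneg_right (by exact_mod_cast hr) hp1.le
    linarith
  refine le_trans ?_ h1
  obtain ⟨t, ht⟩ : ∃ t : ℝ, t = p - 5 := ⟨_, rfl⟩
  have ht0 : 0 ≤ t := by linarith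
  have hpt : (p : ℝ) = t + 5 := by linarith
  have e1 : (1 - (s : ℝ) / p) * (1 - (ρ : ℝ) / p) * (1 - 16 / (p : ℝ) ^ 2) =
      ((p - s) * (p - ρ) * ((p : ℝ) ^ 2 - 16)) / p ^ 4 := by
    field_simp
  have e2 : 1 - ((ρ + s : ℕ) : ℝ) / ((p : ℝ) - 1) = ((p : ℝ) - 1 - (ρ + s : ℕ)) / ((p : ℝ) - 1) := by
    field_simp
  rw [e1, e2, div_le_div_iff₀ (by positivity) hp1]
  rw [hpt]
  have hρ' : ρ = 0 ∨ ρ = 1 ∨ ρ = 2 := by omega
  have hs' : s = 0 ∨ s = 1 := by omega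
  rcases hρ' with rfl | rfl | rfl <;> rcases hs' with rfl | rfl <;> push_cast <;>
    nlinarith [mul_nonneg ht0 ht0, mul_nonneg (mul_nonneg ht0 ht0) ht0,
      mul_nonneg (mul_nonneg (mul_nonneg ht0 ht0) ht0) ht0]

theorem prod_low : ∃ c : ℝ, 0 < c ∧ ∀ Y : ℕ, 4 ≤ Y → ∀ ε₁ : ℝ, ε₁ ≤ 1 → ∀ z m N : ℕ,
    (z : ℝ) < (Y : ℝ) ^ ε₁ → N.Coprime m → Odd (N + m) →
    c * Vz z / Real.log Y ≤ ∏ p ∈ PZ Y ε₁, (1 - (rb z m N p : ℝ) / ((p : ℝ) - 1)) := by
  classical
  obtain ⟨c0, hc0, hlo⟩ := lo_quad (-2) (by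
    rintro ⟨r, hr⟩
    have h2 : r * r = 2 := by linarith
    have h3 : r.natAbs * r.natAbs = 2 := by
      rw [← Int.natAbs_mul, h2]
      rfl
    have h4 : r.natAbs ≤ 1 ∨ 2 ≤ r.natAbs := by omega
    rcases h4 with h4 | h4
    · have := Nat.mul_le_mul h4 h4
      omega
    · have := Nat.mul_le_mul h4 h4
      omega)
  refine ⟨c0 * (3 / 280), by positivity, fun Y hY ε₁ hε₁ z m N hz hc ho => ?_⟩
  have hYr : (4 : ℝ) ≤ Y := by exact_mod_cast hY
  have hY0 : (0 : ℝ) < Y := by linarith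
  have hlY : 0 < Real.log Y := Real.log_pos (by linarith)
  have hPZ : ∀ p, p ∈ PZ Y ε₁ ↔ p.Prime ∧ (p : ℝ) < (Y : ℝ) ^ ε₁ := by
    intro p
    unfold PZ
    rw [mem_filter, mem_Icc]
    constructor
    · rintro ⟨_, h1, h2⟩
      exact ⟨h1, (tt_lt Y p ε₁ (by omega) h1.pos).1 h2⟩
    · rintro ⟨h1, h2⟩
      refine ⟨⟨h1.one_le, ?_⟩, h1, (tt_lt Y p ε₁ (by omega) h1.pos).2 h2⟩
      have h3 : (Y : ℝ) ^ ε₁ ≤ Y := by
        calc (Y : ℝ) ^ ε₁ ≤ (Y : ℝ) ^ (1 : ℝ) :=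
              Real.rpow_le_rpow_of_exponent_le (by linarith) hε₁
          _ = Y := Real.rpow_one _
      have : (p : ℝ) ≤ Y := by linarith
      exact_mod_cast this
  have hsubY : PZ Y ε₁ ⊆ (Icc 1 Y).filter Nat.Prime := by
    intro p hp
    unfold PZ at hp
    rw [mem_filter] at hp ⊢
    exact ⟨hp.1, hp.2.1⟩
  have hpzs : pz z ⊆ PZ Y ε₁ := by
    intro p hp
    rw [mem_pz] at hp
    rw [hPZ]
    refine ⟨hp.2, ?_⟩
    have : (p : ℝ) ≤ z := by exact_mod_cast hp.1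
    linarith
  -- the factors
  have hfac : ∀ p ∈ PZ Y ε₁, ((if p ≤ z then 1 - 1 / (p : ℝ) else 1) *
      (1 - (ro (QF (-2)) 0 p : ℝ) / p) * kk p) ≤ 1 - (rb z m N p : ℝ) / ((p : ℝ) - 1) := by
    intro p hp
    have hpp := ((hPZ p).1 hp).1
    have h1 := rb_le_add z m N p hpp hc
    have h2 := ro_quad_le (-2) p hpp
    rcases Nat.lt_or_ge p 5 with h5 | h5
    · have hp2 := hpp.two_le
      interval_cases p
      · rw [rb_two z m N ho, ro_quad_two]
        unfold kk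
        norm_num
        split_ifs <;> norm_num
      · rw [ro_three] at h1
        by_cases hz3 : 3 ≤ z
        · rw [if_pos hz3] at h1
          have h4 : (rb z m N 3 : ℝ) ≤ 1 := by exact_mod_cast h1
          rw [ro_three, if_pos hz3]
          unfold kk
          norm_num
          linarith
        · rw [if_neg hz3] at h1
          have h4 : rb z m N 3 = 0 := by omega
          rw [ro_three, if_neg hz3, h4]
          unfold kk
          norm_num
      · exact absurd hpp (by norm_num)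
    · have h6 := fac5 p (ro (QF (-2)) 0 p) (if p ≤ z then 1 else 0) (rb z m N p) h5 h2
        (by split_ifs <;> norm_num) h1
      have hk : kk p = 1 - 16 / (p : ℝ) ^ 2 := by
        unfold kk
        rw [if_neg (by omega), if_pos h5]
      rw [hk]
      refine le_trans (le_of_eq ?_) h6
      congr 2
      split_ifs <;> simp
  have hnn1 : ∀ p ∈ PZ Y ε₁, (0 : ℝ) ≤ (if p ≤ z then 1 - 1 / (p : ℝ) else 1) := by
    intro p hp
    have hpp : (1 : ℝ) < p := by exact_mod_cast (((hPZ p).1 hp).1).one_lt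
    split_ifs
    · rw [sub_nonneg, div_le_one (by linarith)]
      exact hpp.le
    · norm_num
  have hr01 : ∀ p ∈ (Icc 1 Y).filter Nat.Prime, 0 ≤ 1 - (ro (QF (-2)) 0 p : ℝ) / p ∧
      1 - (ro (QF (-2)) 0 p : ℝ) / p ≤ 1 := by
    intro p hp
    have hpp := (mem_filter.1 hp).2
    have hp2 : (2 : ℝ) ≤ p := by exact_mod_cast hpp.two_le
    have h2 : (ro (QF (-2)) 0 p : ℝ) ≤ 2 := by exact_mod_cast ro_quad_le (-2) p hpp
    constructor
    · rw [sub_nonneg, div_le_one (by linarith)]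
      linarith
    · have : 0 ≤ (ro (QF (-2)) 0 p : ℝ) / p := by positivity
      linarith
  have hV1 : Vz z = ∏ p ∈ PZ Y ε₁, (if p ≤ z then 1 - 1 / (p : ℝ) else 1) := by
    unfold Vz
    rw [← prod_filter]
    apply prod_congr _ (fun _ _ => rfl)
    ext p
    rw [mem_filter]
    constructor
    · intro hp
      exact ⟨hpzs hp, (mem_pz.1 hp).1⟩
    · rintro ⟨hp, hpz⟩
      rw [mem_pz]
      exact ⟨hpz, ((hPZ p).1 hp).1⟩
  have hV2 : c0 / Real.log Y ≤ ∏ p ∈ PZ Y ε₁, (1 - (ro (QF (-2)) 0 p : ℝ) / p) := by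
    refine (hlo Y (by omega)).trans ?_
    unfold lo
    rw [← prod_sdiff hsubY]
    calc _ ≤ 1 * ∏ p ∈ PZ Y ε₁, (1 - (ro (QF (-2)) 0 p : ℝ) / p) := by
          apply mul_le_mul_of_nonneg_right
          · apply prod_le_one
            · intro p hp
              exact (hr01 p (mem_sdiff.1 hp).1).1
            · intro p hp
              exact (hr01 p (mem_sdiff.1 hp).1).2
          · exact prod_nonneg fun p hp => (hr01 p (hsubY hp)).1
      _ = _ := one_mul _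
  have hV3 : (3 / 280 : ℝ) ≤ ∏ p ∈ PZ Y ε₁, kk p := by
    refine (kk_low Y hY).trans ?_
    have hs : PZ Y ε₁ ⊆ Icc 1 Y := hsubY.trans (filter_subset _ _)
    rw [← prod_sdiff hs]
    calc _ ≤ 1 * ∏ p ∈ PZ Y ε₁, kk p := by
          apply mul_le_mul_of_nonneg_right
          · exact prod_le_one (fun p _ => (kk_pos p).1.le) (fun p _ => (kk_pos p).2)
          · exact prod_nonneg fun p _ => (kk_pos p).1.le
      _ = _ := one_mul _
  have hVz0 : 0 ≤ Vz z := by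
    rw [hV1]
    exact prod_nonneg hnn1
  have hVr0 : 0 ≤ ∏ p ∈ PZ Y ε₁, (1 - (ro (QF (-2)) 0 p : ℝ) / p) :=
    prod_nonneg fun p hp => (hr01 p (hsubY hp)).1
  calc c0 * (3 / 280) * Vz z / Real.log Y = Vz z * (c0 / Real.log Y) * (3 / 280) := by ring
    _ ≤ (∏ p ∈ PZ Y ε₁, (if p ≤ z then 1 - 1 / (p : ℝ) else 1)) *
        (∏ p ∈ PZ Y ε₁, (1 - (ro (QF (-2)) 0 p : ℝ) / p)) * ∏ p ∈ PZ Y ε₁, kk p := by
        rw [← hV1]
        gcongr
    _ = ∏ p ∈ PZ Y ε₁, ((if p ≤ z then 1 - 1 / (p : ℝ) else 1) *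
      (1 - (ro (QF (-2)) 0 p : ℝ) / p) * kk p) := by
        rw [prod_mul_distrib, prod_mul_distrib]
    _ ≤ _ := by
        apply Finset.prod_le_prod
        · intro p hp
          exact mul_nonneg (mul_nonneg (hnn1 p hp) (hr01 p (hsubY hp)).1) (kk_pos p).1.le
        · exact hfac

end Pool.Agent.D0H63.FP
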