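import Pool.Agent.D0H63.FP.Prod
import Pool.Agent.Y882.KW.Alm
import Pool.Agent.H373R2.T7.Tuple2

/-! The primes which remain after the weighted sieve. -/

set_option autoImplicit false

namespace Pool.Agent.D0H63.FP
open Finset Filter Polynomial
open Pool.Agent.H378R2 (Phi EPhi LPhi)
open Pool.Agent.Y882 (PZ VV tt_lt)
open Pool.Agent.Y882.KW (WW almost)
open Pool.Agent.Y882.SI (QF QF_eval)
open Pool.Agent.W23.DC (pr tt)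
open Pool.Agent.H373R2.T7 (pz Vz mem_pz)

/-- `q ^ 2 - 2` has at most five prime factors, and they are at least `Q` -/
def Good (Q : ℝ) (q : ℕ) : Prop :=
  (q ^ 2 - 2).primeFactorsList.length ≤ 5 ∧ ∀ ℓ : ℕ, ℓ.Prime → ℓ ∣ q ^ 2 - 2 → Q ≤ ℓ

lemma mem_PZ' (Y : ℕ) (hY : 2 ≤ Y) (w : ℝ) (hw : w ≤ 1) (p : ℕ) :
    p ∈ PZ Y w ↔ p.Prime ∧ (p : ℝ) < (Y : ℝ) ^ w := by
  have hYr : (2 : ℝ) ≤ Y := by exact_mod_cast hY
  unfold PZ
  rw [mem_filter, mem_Icc]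
  constructor
  · rintro ⟨_, h1, h2⟩
    exact ⟨h1, (tt_lt Y p w hY h1.pos).1 h2⟩
  · rintro ⟨h1, h2⟩
    refine ⟨⟨h1.one_le, ?_⟩, h1, (tt_lt Y p w hY h1.pos).2 h2⟩
    have h3 : (Y : ℝ) ^ w ≤ Y := by
      calc (Y : ℝ) ^ w ≤ (Y : ℝ) ^ (1 : ℝ) :=
            Real.rpow_le_rpow_of_exponent_le (by linarith) hw
        _ = Y := Real.rpow_one _
    have : (p : ℝ) ≤ Y := by linarith
    exact_mod_cast this

lemma mem_pr' (Y : ℕ) (hY : 2 ≤ Y) (u w : ℝ) (p : ℕ) (hp : p ∈ pr Y u w) :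
    p.Prime ∧ (Y : ℝ) ^ u ≤ p ∧ (p : ℝ) < (Y : ℝ) ^ w := by
  unfold pr at hp
  rw [mem_filter] at hp
  obtain ⟨_, h1, h2, h3⟩ := hp
  refine ⟨h1, ?_, (tt_lt Y p w hY h1.pos).1 h3⟩
  by_contra h6
  push Not at h6
  have := (tt_lt Y p u hY h1.pos).2 h6
  linarith

lemma WW_mono (Y : ℕ) (ζ υ a : ℝ) (ha : 0 ≤ a) (hζυ : ζ ≤ υ) (hυ : 0 < υ) (A B : ℕ)
    (h : ∀ p ∈ PZ Y υ, p ∣ B → p ∣ A) (hA : 0 < WW Y ζ υ a (a / υ) A) : 0 < WW Y ζ υ a (a / υ) B := by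
  classical
  unfold WW at hA ⊢
  split_ifs at hA with h1
  swap
  · simp at hA
  rw [if_pos, one_mul]
  · rw [one_mul] at hA
    have h2 : ∑ q ∈ pr Y ζ υ, (a - a / υ * tt Y q) * (if q ∣ B then (1 : ℝ) else 0) ≤
        ∑ q ∈ pr Y ζ υ, (a - a / υ * tt Y q) * (if q ∣ A then (1 : ℝ) else 0) := by
      apply sum_le_sum
      intro q hq
      unfold pr at hq
      rw [mem_filter] at hq
      have hq' : q ∈ PZ Y υ := by
        unfold PZ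
        rw [mem_filter]
        exact ⟨hq.1, hq.2.1, hq.2.2.2⟩
      have hc : 0 ≤ a - a / υ * tt Y q := by
        have h3 : a / υ * tt Y q ≤ a / υ * υ := mul_le_mul_of_nonneg_left hq.2.2.2.le (by positivity)
        rw [div_mul_cancel₀ _ hυ.ne'] at h3
        linarith
      apply mul_le_mul_of_nonneg_left _ hc
      by_cases hB : q ∣ B
      · rw [if_pos hB, if_pos (h q hq' hB)]
      · rw [if_neg hB]
        split_ifs <;> norm_num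
    linarith
  · intro p hp hB
    apply h1 p hp (h p _ hB)
    unfold PZ at hp ⊢
    rw [mem_filter] at hp ⊢
    exact ⟨hp.1, hp.2.1, lt_of_lt_of_le hp.2.2 hζυ⟩

/-- a prime with a positive weight and without the squares is good -/
lemma good_of (Y : ℕ) (hY : 4 ≤ Y) (ζ υ lam : ℝ) (hζυ : ζ ≤ υ) (hυ0 : 0 < υ) (hυ1 : υ ≤ 1) (hlam : 0 < lam)
    (hr : 1 / lam + 2 / υ ≤ 5 + 1) (z m N q : ℕ) (hq : q.Prime) (hqY : q ≤ Y) (hqυ : (Y : ℝ) ^ υ ≤ q)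
    (hz : (z : ℝ) < (Y : ℝ) ^ ζ)
    (hW : 0 < WW Y ζ υ lam (lam / υ) (av (PZ Y υ) z m N q)) (hsq : ∀ p ∈ pr Y ζ υ, ¬ p ^ 2 ∣ q ^ 2 - 2) :
    Good ((Y : ℝ) ^ ζ) q ∧ ∀ p ∈ pz z, ¬ (p : ℤ) ∣ (N : ℤ) - m * q := by
  classical
  have hq2 := hq.two_le
  have hq4 : 4 ≤ q ^ 2 := by nlinarith
  have hY2 : 2 ≤ Y := by omega
  have hYr : (4 : ℝ) ≤ Y := by exact_mod_cast hY
  have hPZ : ∀ p ∈ PZ Y υ, p.Prime := fun p hp => ((mem_PZ' Y hY2 υ hυ1 p).1 hp).1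
  have hnd : ∀ p ∈ PZ Y υ, ¬ p ∣ q := by
    intro p hp hd
    obtain ⟨h1, h2⟩ := (mem_PZ' Y hY2 υ hυ1 p).1 hp
    have h3 := (Nat.prime_dvd_prime_iff_eq h1 hq).1 hd
    rw [h3] at h2
    linarith
  have hcast : ((q ^ 2 - 2 : ℕ) : ℤ) = (q : ℤ) ^ 2 - 2 := by
    push_cast [Nat.cast_sub (show 2 ≤ q ^ 2 by omega)]
    ring
  constructor
  · have hW2 : 0 < WW Y ζ υ lam (lam / υ) (q ^ 2 - 2) := by
      refine WW_mono Y ζ υ lam hlam.le hζυ hυ0 _ _ ?_ hW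
      intro p hp hd
      rw [dvd_av _ hPZ z m N q p hp]
      refine ⟨hnd p hp, Or.inl ?_⟩
      rw [← hcast]
      exact_mod_cast hd
    refine almost Y hY2 ζ υ lam 2 5 hζυ hυ0 hυ1 hlam (by push_cast; exact hr) (q ^ 2 - 2) (by omega) ?_ hW2 hsq
    rw [show ((Y : ℝ) ^ (2 : ℝ)) = (Y : ℝ) ^ 2 by norm_cast]
    have h1 : ((q ^ 2 - 2 : ℕ) : ℝ) ≤ ((q ^ 2 : ℕ) : ℝ) := by exact_mod_cast Nat.sub_le _ _
    have h2 : ((q ^ 2 : ℕ) : ℝ) ≤ ((Y ^ 2 : ℕ) : ℝ) := by exact_mod_cast Nat.pow_le_pow_left hqY 2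
    refine (h1.trans h2).trans (le_of_eq (by push_cast; ring))
  · intro p hp hd
    rw [mem_pz] at hp
    have hpζ : (p : ℝ) < (Y : ℝ) ^ ζ := by
      have : (p : ℝ) ≤ z := by exact_mod_cast hp.1
      linarith
    have hp1 : p ∈ PZ Y ζ := (mem_PZ' Y hY2 ζ (hζυ.trans hυ1) p).2 ⟨hp.2, hpζ⟩
    have hp2 : p ∈ PZ Y υ := by
      unfold PZ at hp1 ⊢
      rw [mem_filter] at hp1 ⊢
      exact ⟨hp1.1, hp1.2.1, lt_of_lt_of_le hp1.2.2 hζυ⟩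
    unfold WW at hW
    split_ifs at hW with h1
    · apply h1 p hp1
      rw [dvd_av _ hPZ z m N q p hp2]
      exact ⟨hnd p hp2, Or.inr ⟨hp.1, hd⟩⟩
    · simp at hW

/-- the squares of the medium primes -/
lemma sq_total (ζ υ : ℝ) (hζ : 0 < ζ) : ∃ Y0 : ℕ, ∀ Y : ℕ, Y0 ≤ Y → ∀ M : ℕ,
    ∑ p ∈ pr Y ζ υ, (((Icc 1 M).filter (fun n : ℕ => p ^ 2 ∣ n ^ 2 - 2 ∧ 2 ≤ n)).card : ℝ) ≤
      4 * (M : ℝ) / (Y : ℝ) ^ ζ + 2 * (Y : ℝ) ^ υ := by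
  classical
  have ev1 : ∀ᶠ Y : ℕ in atTop, 5 ≤ (Y : ℝ) ^ ζ :=
    ((tendsto_rpow_atTop hζ).comp tendsto_natCast_atTop_atTop).eventually_ge_atTop _
  obtain ⟨Y2, hY2⟩ := eventually_atTop.1 (ev1.and (eventually_ge_atTop 3))
  refine ⟨Y2, fun Y hY M => ?_⟩
  obtain ⟨e1, e2⟩ := hY2 Y hY
  obtain ⟨R, hR⟩ : ∃ R, R = (Y : ℝ) ^ ζ := ⟨_, rfl⟩
  rw [← hR] at e1 ⊢
  obtain ⟨A, hA⟩ : ∃ A, A = ⌈R⌉₊ - 1 := ⟨_, rfl⟩
  have hc1 : 1 ≤ ⌈R⌉₊ := Nat.ceil_pos.2 (by linarith)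
  have hAr : R - 1 ≤ A := by
    rw [hA, Nat.cast_sub hc1]
    push_cast
    linarith [Nat.le_ceil R]
  have hA1 : 1 ≤ A := by
    have : (1 : ℝ) ≤ A := by linarith
    exact_mod_cast this
  have hmem : ∀ p ∈ pr Y ζ υ, p.Prime ∧ R ≤ p ∧ (p : ℝ) < (Y : ℝ) ^ υ := by
    intro p hp
    rw [hR]
    exact mem_pr' Y (by omega) ζ υ p hp
  have hsub : pr Y ζ υ ⊆ Ioc A Y := by
    intro p hp
    obtain ⟨h3, h4, h5⟩ := hmem p hp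
    unfold pr at hp
    rw [mem_filter, mem_Icc] at hp
    rw [mem_Ioc]
    refine ⟨?_, hp.1.2⟩
    have h6 : ⌈R⌉₊ ≤ p := Nat.ceil_le.2 h4
    omega
  have hcor := corr A Y hA1 _ hsub
  have hterm : ∀ p ∈ pr Y ζ υ, (((Icc 1 M).filter (fun n : ℕ => p ^ 2 ∣ n ^ 2 - 2 ∧ 2 ≤ n)).card : ℝ) ≤
      2 * M * (1 / ((p : ℝ) - 1) - 1 / (p : ℝ)) + 2 := by
    intro p hp
    obtain ⟨h3, h4, h5⟩ := hmem p hp
    have hp5 : (5 : ℝ) ≤ p := by linarith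
    have hp5' : 5 ≤ p := by exact_mod_cast hp5
    have h6 := Pool.Agent.Y882.MG.sq_countS (-2) (by norm_num) p h3 (by norm_num; omega) (by omega) 0 M
    have h7 : ((Icc 1 M).filter (fun n : ℕ => p ^ 2 ∣ n ^ 2 - 2 ∧ 2 ≤ n)).card ≤
        ((Icc 1 M).filter (fun j : ℕ => ((p ^ 2 : ℕ) : ℤ) ∣ (QF (-2)).eval ((0 + j : ℕ) : ℤ))).card := by
      apply card_le_card
      intro n hn
      rw [mem_filter] at hn ⊢
      refine ⟨hn.1, ?_⟩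
      rw [QF_eval, zero_add]
      have h8 : 2 ≤ n ^ 2 := by nlinarith [hn.2.2]
      have h9 : ((p ^ 2 : ℕ) : ℤ) ∣ ((n ^ 2 - 2 : ℕ) : ℤ) := by exact_mod_cast hn.2.1
      have e : ((n ^ 2 - 2 : ℕ) : ℤ) = (n : ℤ) ^ 2 + -2 := by
        push_cast [Nat.cast_sub h8]
        ring
      rwa [e] at h9
    have h8 : (((Icc 1 M).filter (fun n : ℕ => p ^ 2 ∣ n ^ 2 - 2 ∧ 2 ≤ n)).card : ℝ) ≤
        (2 : ℕ) * (M * (1 / (p : ℝ) ^ 2) + 1) := by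
      refine le_trans ?_ h6
      exact_mod_cast h7
    refine h8.trans ?_
    have h9 : 1 / (p : ℝ) ^ 2 ≤ 1 / ((p : ℝ) - 1) - 1 / (p : ℝ) := by
      have a1 : (0 : ℝ) < p - 1 := by linarith
      have a2 : (0 : ℝ) < p := by linarith
      have e : 1 / ((p : ℝ) - 1) - 1 / (p : ℝ) = 1 / ((p - 1) * p) := by
        field_simp
        ring
      rw [e]
      apply one_div_le_one_div_of_le (by positivity)
      nlinarith
    have h10 : (0 : ℝ) ≤ M := Nat.cast_nonneg _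
    have := mul_le_mul_of_nonneg_left h9 h10
    push_cast
    linarith
  refine (sum_le_sum hterm).trans ?_
  rw [sum_add_distrib, ← mul_sum, sum_const, nsmul_eq_mul]
  have hM : (0 : ℝ) ≤ M := Nat.cast_nonneg _
  have h1 : 2 * (M : ℝ) * ∑ p ∈ pr Y ζ υ, (1 / ((p : ℝ) - 1) - 1 / (p : ℝ)) ≤ 4 * (M : ℝ) / R := by
    calc 2 * (M : ℝ) * ∑ p ∈ pr Y ζ υ, (1 / ((p : ℝ) - 1) - 1 / (p : ℝ)) ≤ 2 * M * (1 / (A : ℝ)) :=
          mul_le_mul_of_nonneg_left hcor (by positivity)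
      _ ≤ 2 * M * (2 / R) := by
          apply mul_le_mul_of_nonneg_left _ (by positivity)
          have hA0 : (0 : ℝ) < A := by linarith
          rw [div_le_div_iff₀ hA0 (by linarith)]
          linarith
      _ = 4 * (M : ℝ) / R := by ring
  have h2 : ((pr Y ζ υ).card : ℝ) ≤ (Y : ℝ) ^ υ := by
    have h3 : pr Y ζ υ ⊆ Ico 1 ⌈(Y : ℝ) ^ υ⌉₊ := by
      intro p hp
      obtain ⟨h3, h4, h5⟩ := hmem p hp
      rw [mem_Ico]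
      exact ⟨h3.one_le, Nat.lt_ceil.2 h5⟩
    have h4 := card_le_card h3
    rw [Nat.card_Ico] at h4
    have h5 : 0 ≤ (Y : ℝ) ^ υ := by positivity
    rcases Nat.eq_zero_or_pos ⌈(Y : ℝ) ^ υ⌉₊ with h6 | h6
    · rw [h6] at h4
      have : (pr Y ζ υ).card = 0 := by omega
      rw [this]
      simpa using h5
    · have h7 := Nat.ceil_lt_add_one h5
      have h8 : ((pr Y ζ υ).card : ℝ) ≤ ((⌈(Y : ℝ) ^ υ⌉₊ - 1 : ℕ) : ℝ) := by exact_mod_cast h4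
      rw [Nat.cast_sub h6] at h8
      push_cast at h8
      linarith
  linarith

end Pool.Agent.D0H63.FP
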