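import Pool.Agent.D0H63.FP.Sub
import Pool.Agent.H378R2.M7r

/-! The lower bound for the sum over the good primes. -/

set_option autoImplicit false

namespace Pool.Agent.D0H63.FP
open Finset Filter Polynomial
open Pool.Agent.H378R2 (Phi EPhi LPhi)
open Pool.Agent.Y882 (PZ VV tt_lt)
open Pool.Agent.Y882.KW (WW almost)
open Pool.Agent.Y882.SI (QF QF_eval)
open Pool.Agent.W23.DC (pr tt)
open Pool.Agent.H373R2.T7 (pz Vz mem_pz lamI lamP lamP_nonneg Vz_pos)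

lemma ev_pow (δ C : ℝ) (hδ : 0 < δ) (k : ℕ) : ∀ᶠ Y : ℕ in atTop, C * Real.log Y ^ k ≤ (Y : ℝ) ^ δ := by
  have h := (isLittleO_log_rpow_rpow_atTop (k : ℝ) hδ).bound (show (0 : ℝ) < 1 / (|C| + 1) by positivity)
  have h2 := tendsto_natCast_atTop_atTop.eventually h
  filter_upwards [h2, eventually_ge_atTop 1] with Y hY h1
  have hl : 0 ≤ Real.log Y := Real.log_natCast_nonneg _
  rw [Real.rpow_natCast, Real.norm_of_nonneg (by positivity), Real.norm_of_nonneg (by positivity)] at hY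
  have h3 : C ≤ |C| + 1 := by linarith [le_abs_self C]
  calc C * Real.log Y ^ k ≤ (|C| + 1) * Real.log Y ^ k := mul_le_mul_of_nonneg_right h3 (by positivity)
    _ ≤ (|C| + 1) * (1 / (|C| + 1) * (Y : ℝ) ^ δ) := mul_le_mul_of_nonneg_left hY (by positivity)
    _ = (Y : ℝ) ^ δ := by field_simp

lemma lamI_nat (n : ℕ) (hn : 1 ≤ n) : lamI ((n : ℕ) : ℤ) = ArithmeticFunction.vonMangoldt n := by
  unfold lamI
  rw [if_pos (by omega), Int.toNat_natCast]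

lemma lamP_nat (n : ℕ) : lamP ((n : ℕ) : ℤ) = if n.Prime then Real.log n else 0 := by
  unfold lamP
  rw [Int.toNat_natCast]

lemma lamP_le_vm (n : ℕ) : lamP ((n : ℕ) : ℤ) ≤ ArithmeticFunction.vonMangoldt n := by
  rw [lamP_nat]
  split_ifs with h
  · rw [ArithmeticFunction.vonMangoldt_apply_prime h]
  · exact ArithmeticFunction.vonMangoldt_nonneg

open Classical in
/-- the pointwise inequality -/
lemma ptw (Y : ℕ) (hY : 4 ≤ Y) (ζ υ lam X : ℝ) (hζυ : ζ ≤ υ) (hυ0 : 0 < υ) (hυ1 : υ ≤ 1) (hlam : 0 < lam)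
    (hr : 1 / lam + 2 / υ ≤ 5 + 1) (z m N : ℕ) (hz : (z : ℝ) < (Y : ℝ) ^ ζ) (hX : (Y : ℝ) ^ υ ≤ X)
    (hX1 : 1 ≤ X) (M : ℕ) (hMY : M ≤ Y) (n : ℕ) (hn1 : 1 ≤ n) (hnM : n ≤ M) :
    Phi (n / X) * ArithmeticFunction.vonMangoldt n *
          (if 0 < WW Y ζ υ lam (lam / υ) (av (PZ Y υ) z m N n) then 1 else 0) ≤
      1 / 2 * (lamI ((n : ℕ) : ℤ) - lamP ((n : ℕ) : ℤ)) +
      1 / 2 * (if Good ((Y : ℝ) ^ ζ) n ∧ ∀ p ∈ pz z, ¬ (p : ℤ) ∣ (N : ℤ) - m * n then lamP ((n : ℕ) : ℤ) else 0) +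
      1 / 2 * Real.log M * ∑ p ∈ pr Y ζ υ, (if p ^ 2 ∣ n ^ 2 - 2 ∧ 2 ≤ n then (1 : ℝ) else 0) := by
  have hM1 : 1 ≤ M := hn1.trans hnM
  have hlM : 0 ≤ Real.log M := Real.log_natCast_nonneg _
  have hP0 := lamP_nonneg ((n : ℕ) : ℤ)
  have hIP : lamP ((n : ℕ) : ℤ) ≤ lamI ((n : ℕ) : ℤ) := by
    rw [lamI_nat n hn1]
    exact lamP_le_vm n
  have hG0 : (0 : ℝ) ≤ (if Good ((Y : ℝ) ^ ζ) n ∧ ∀ p ∈ pz z, ¬ (p : ℤ) ∣ (N : ℤ) - m * n then lamP ((n : ℕ) : ℤ) else 0) := by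
    split_ifs
    · exact hP0
    · exact le_rfl
  have hS0 : (0 : ℝ) ≤ ∑ p ∈ pr Y ζ υ, (if p ^ 2 ∣ n ^ 2 - 2 ∧ 2 ≤ n then (1 : ℝ) else 0) :=
    sum_nonneg fun p _ => by split_ifs <;> norm_num
  have hLS : 0 ≤ 1 / 2 * Real.log M * ∑ p ∈ pr Y ζ υ, (if p ^ 2 ∣ n ^ 2 - 2 ∧ 2 ≤ n then (1 : ℝ) else 0) := by
    positivity
  have hPhi := Pool.Agent.H378R2.Phi_le_half ((n : ℝ) / X)
  have hPhi0 : 0 ≤ Phi ((n : ℝ) / X) := le_max_left _ _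
  have hX0 : 0 < X := by linarith
  by_cases hW : 0 < WW Y ζ υ lam (lam / υ) (av (PZ Y υ) z m N n)
  swap
  · rw [if_neg hW, mul_zero]
    linarith
  rw [if_pos hW, mul_one]
  by_cases hnX : (n : ℝ) ≤ X
  · rw [Pool.Agent.H378R2.Phi_eq_zero_of_le (by positivity) ((div_le_one hX0).2 hnX), zero_mul]
    linarith
  push Not at hnX
  have h1 : Phi ((n : ℝ) / X) * ArithmeticFunction.vonMangoldt n ≤ 1 / 2 * (lamI ((n : ℕ) : ℤ) - lamP ((n : ℕ) : ℤ)) +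
      1 / 2 * lamP ((n : ℕ) : ℤ) := by
    rw [lamI_nat n hn1]
    have h2 : 0 ≤ ArithmeticFunction.vonMangoldt n := ArithmeticFunction.vonMangoldt_nonneg
    have := mul_le_mul_of_nonneg_right hPhi h2
    linarith
  have h3 : lamP ((n : ℕ) : ℤ) ≤
      (if Good ((Y : ℝ) ^ ζ) n ∧ ∀ p ∈ pz z, ¬ (p : ℤ) ∣ (N : ℤ) - m * n then lamP ((n : ℕ) : ℤ) else 0) +
      Real.log M * ∑ p ∈ pr Y ζ υ, (if p ^ 2 ∣ n ^ 2 - 2 ∧ 2 ≤ n then (1 : ℝ) else 0) := by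
    by_cases hp : n.Prime
    swap
    · have h4 : lamP ((n : ℕ) : ℤ) = 0 := by rw [lamP_nat, if_neg hp]
      rw [h4] at hG0 ⊢
      have := mul_nonneg hlM hS0
      linarith
    by_cases hsq : ∀ p ∈ pr Y ζ υ, ¬ p ^ 2 ∣ n ^ 2 - 2
    · have h5 := good_of Y hY ζ υ lam hζυ hυ0 hυ1 hlam hr z m N n hp (hnM.trans hMY) (hX.trans hnX.le) hz hW hsq
      rw [if_pos h5]
      have := mul_nonneg hlM hS0
      linarith
    · push Not at hsq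
      obtain ⟨p, hp1, hp2⟩ := hsq
      have h6 : (1 : ℝ) ≤ ∑ p ∈ pr Y ζ υ, (if p ^ 2 ∣ n ^ 2 - 2 ∧ 2 ≤ n then (1 : ℝ) else 0) := by
        refine le_trans (le_of_eq ?_) (single_le_sum (f := fun p => if p ^ 2 ∣ n ^ 2 - 2 ∧ 2 ≤ n then (1 : ℝ) else 0)
          (fun p _ => by split_ifs <;> norm_num) hp1)
        rw [if_pos ⟨hp2, hp.two_le⟩]
      have h7 : lamP ((n : ℕ) : ℤ) ≤ Real.log M := by
        rw [lamP_nat, if_pos hp]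
        exact Real.log_le_log (by exact_mod_cast hn1) (by exact_mod_cast hnM)
      have h8 := mul_le_mul_of_nonneg_left h6 hlM
      linarith
  linarith

open Classical in
theorem low2 (τ ζ υ lam τ' θ : ℝ) (hζ : 0 < ζ) (h2 : 2 * ζ < τ) (h4 : τ ≤ 4 * ζ)
    (hτ : τ ≤ 1) (hζυ : ζ ≤ υ) (hυτ : υ < τ) (hlam : 0 < lam)
    (hJ0 : ∫ x in ζ..υ, (lam - lam / υ * x) / (τ - x) / x < Real.log (τ / ζ - 1) / τ)
    (h5 : τ < τ') (h6 : τ' < θ) (hθ : θ < 1 / 2) (hr : 1 / lam + 2 / υ ≤ 5 + 1) (hρ : 1 / 2 < τ' / θ) :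
    ∃ ε₁ f : ℝ, 0 < ε₁ ∧ 0 < f ∧ ∀ B : ℕ, ∃ Y0 : ℕ, ∀ Y : ℕ, Y0 ≤ Y → ∀ X : ℝ,
      (Y : ℝ) ^ (τ' / θ) ≤ X → 3 * X ≤ Y → ∀ z m N : ℕ, (z : ℝ) < (Y : ℝ) ^ ε₁ → N.Coprime m → Odd (N + m) →
      f * Vz z * X / Real.log Y - X / Real.log Y ^ B ≤
        ∑ n ∈ (Icc 1 ⌊3 * X⌋₊).filter (fun n : ℕ => Good ((Y : ℝ) ^ ζ) n ∧ ∀ p ∈ pz z, ¬ (p : ℤ) ∣ (N : ℤ) - m * n),
          lamP ((n : ℕ) : ℤ) := by
  obtain ⟨ρ, hρe⟩ : ∃ ρ, ρ = τ' / θ := ⟨_, rfl⟩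
  rw [← hρe] at hρ ⊢
  obtain ⟨ε₁, f0, hε, hεζ, hf0, HL⟩ := low τ ζ υ lam τ' θ hζ h2 h4 hτ hζυ hυτ hlam hJ0 h5 h6 hθ
  obtain ⟨c, hc, HP⟩ := prod_low
  have hυ0 : 0 < υ := by linarith
  have hυ1 : υ ≤ 1 := by linarith
  refine ⟨ε₁, f0 * c / 100, hε, by positivity, fun B => ?_⟩
  obtain ⟨Y1, H1⟩ := HL (B + 2)
  obtain ⟨X1, HX1⟩ := eventually_atTop.1 (Pool.Agent.H378R2.LPhi_ge)
  obtain ⟨Y2, H2⟩ := sq_total ζ υ hζ
  have ev1 : ∀ᶠ Y : ℕ in atTop, max X1 1 ≤ (Y : ℝ) ^ ρ :=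
    ((tendsto_rpow_atTop (by linarith)).comp tendsto_natCast_atTop_atTop).eventually_ge_atTop _
  have ev2 : ∀ᶠ Y : ℕ in atTop, 40 * 2 ^ (B + 2) ≤ Real.log Y :=
    (Real.tendsto_log_atTop.comp tendsto_natCast_atTop_atTop).eventually_ge_atTop _
  obtain ⟨Y3, H3⟩ := eventually_atTop.1 (ev1.and (ev2.and ((ev_pow (ρ - 1 / 2) 8 (by linarith) (B + 1)).and
    ((ev_pow ζ 48 hζ (B + 1)).and ((ev_pow (ρ - υ) 8 (by linarith) (B + 1)).and (eventually_ge_atTop 4))))))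
  refine ⟨Y1 + Y2 + Y3, fun Y hY X hX hXY z m N hz hcop hodd => ?_⟩
  obtain ⟨a1, a2, a3, a4, a5, a6⟩ := H3 Y (by omega)
  have hYr : (4 : ℝ) ≤ Y := by exact_mod_cast a6
  have hY0 : (0 : ℝ) < Y := by linarith
  have hX1 : 1 ≤ X := ((le_max_right _ _).trans a1).trans hX
  have hX0 : 0 < X := by linarith
  have hXX1 : X1 ≤ X := ((le_max_left _ _).trans a1).trans hX
  have hzζ : (z : ℝ) < (Y : ℝ) ^ ζ :=
    lt_of_lt_of_le hz (Real.rpow_le_rpow_of_exponent_le (by linarith) hεζ)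
  have hυρ : (Y : ℝ) ^ υ ≤ X := (Real.rpow_le_rpow_of_exponent_le (by linarith) (by linarith)).trans hX
  have b1 := H1 Y (by omega) X (by rw [← hρe]; exact hX) z m N hz hcop
  have b2 := HP Y a6 ε₁ (by linarith) z m N hz hcop hodd
  have b3 := HX1 X hXX1
  obtain ⟨M, hM⟩ : ∃ M, M = ⌊3 * X⌋₊ := ⟨_, rfl⟩
  have b4 := H2 Y (by omega) M
  rw [← hM] at b1 ⊢
  have hMX : (M : ℝ) ≤ 3 * X := by rw [hM]; exact Nat.floor_le (by linarith)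
  have hM1 : 1 ≤ M := by
    rw [hM]
    exact Nat.le_floor (by push_cast; linarith)
  have hMY : M ≤ Y := by
    have : (M : ℝ) ≤ Y := hMX.trans hXY
    exact_mod_cast this
  have hMYr : (M : ℝ) ≤ Y := by exact_mod_cast hMY
  obtain ⟨L, hL⟩ : ∃ L, L = Real.log (Y : ℝ) := ⟨_, rfl⟩
  rw [← hL] at b1 b2 a2 a3 a4 a5 ⊢
  have hL40 : (40 : ℝ) ≤ L := by
    have : (1 : ℝ) ≤ 2 ^ (B + 2) := one_le_pow₀ (by norm_num)
    linarith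
  have hL0 : 0 < L := by linarith
  have hlM0 : 0 ≤ Real.log M := Real.log_natCast_nonneg _
  have hlML : Real.log M ≤ L := by
    rw [hL]
    exact Real.log_le_log (by exact_mod_cast hM1) hMYr
  -- the sum over the pointwise inequality
  obtain ⟨SG, hSG⟩ : ∃ SG, SG = ∑ n ∈ (Icc 1 M).filter (fun n : ℕ => Good ((Y : ℝ) ^ ζ) n ∧
    ∀ p ∈ pz z, ¬ (p : ℤ) ∣ (N : ℤ) - m * n), lamP ((n : ℕ) : ℤ) := ⟨_, rfl⟩
  rw [← hSG]
  have b5 : ∑ n ∈ Icc 1 M, Phi (n / X) * ArithmeticFunction.vonMangoldt n *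
          (if 0 < WW Y ζ υ lam (lam / υ) (av (PZ Y υ) z m N n) then 1 else 0) ≤
      1 / 2 * (2 * √(M : ℝ) * Real.log M) + 1 / 2 * SG +
        1 / 2 * Real.log M * (4 * (M : ℝ) / (Y : ℝ) ^ ζ + 2 * (Y : ℝ) ^ υ) := by
    have c1 : ∑ n ∈ Icc 1 M, Phi (n / X) * ArithmeticFunction.vonMangoldt n *
          (if 0 < WW Y ζ υ lam (lam / υ) (av (PZ Y υ) z m N n) then 1 else 0) ≤
        ∑ n ∈ Icc 1 M, (1 / 2 * (lamI ((n : ℕ) : ℤ) - lamP ((n : ℕ) : ℤ)) +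
      1 / 2 * (if Good ((Y : ℝ) ^ ζ) n ∧ ∀ p ∈ pz z, ¬ (p : ℤ) ∣ (N : ℤ) - m * n then lamP ((n : ℕ) : ℤ) else 0) +
      1 / 2 * Real.log M * ∑ p ∈ pr Y ζ υ, (if p ^ 2 ∣ n ^ 2 - 2 ∧ 2 ≤ n then (1 : ℝ) else 0)) := by
      apply sum_le_sum
      intro n hn
      rw [mem_Icc] at hn
      exact ptw Y a6 ζ υ lam X hζυ hυ0 hυ1 hlam hr z m N hzζ hυρ hX1 M hMY n hn.1 hn.2
    refine c1.trans ?_
    rw [sum_add_distrib, sum_add_distrib, ← mul_sum, ← mul_sum, ← mul_sum]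
    have c2 : ∑ n ∈ Icc 1 M, (lamI ((n : ℕ) : ℤ) - lamP ((n : ℕ) : ℤ)) ≤ 2 * √(M : ℝ) * Real.log M := by
      have := Pool.Agent.H373R2.T7.pp_sum M M 0 hM1 (by
        intro n hn
        rw [mem_Icc] at hn
        rw [add_zero]
        exact_mod_cast hn.2)
      simpa only [add_zero] using this
    have c3 : ∑ n ∈ Icc 1 M, (if Good ((Y : ℝ) ^ ζ) n ∧ ∀ p ∈ pz z, ¬ (p : ℤ) ∣ (N : ℤ) - m * n then lamP ((n : ℕ) : ℤ) else 0) = SG := by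
      rw [hSG, sum_filter]
    have c4 : ∑ n ∈ Icc 1 M, ∑ p ∈ pr Y ζ υ, (if p ^ 2 ∣ n ^ 2 - 2 ∧ 2 ≤ n then (1 : ℝ) else 0) ≤
        4 * (M : ℝ) / (Y : ℝ) ^ ζ + 2 * (Y : ℝ) ^ υ := by
      rw [sum_comm]
      refine le_trans (le_of_eq ?_) b4
      apply sum_congr rfl
      intro p _
      rw [← sum_filter, sum_const, nsmul_eq_mul, mul_one]
    rw [c3]
    have c5 := mul_le_mul_of_nonneg_left c4 (show 0 ≤ 1 / 2 * Real.log M by positivity)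
    have c6 := mul_le_mul_of_nonneg_left c2 (show (0 : ℝ) ≤ 1 / 2 by norm_num)
    linarith
  -- the main term
  have hV := Vz_pos z
  have b6 : f0 * c / 200 * Vz z * X / L ≤ f0 * LPhi X * ∏ p ∈ PZ Y ε₁, (1 - (rb z m N p : ℝ) / ((p : ℝ) - 1)) := by
    calc f0 * c / 200 * Vz z * X / L = f0 * (X / 200) * (c * Vz z / L) := by ring
      _ ≤ f0 * LPhi X * ∏ p ∈ PZ Y ε₁, (1 - (rb z m N p : ℝ) / ((p : ℝ) - 1)) := by
          apply mul_le_mul (mul_le_mul_of_nonneg_left b3 hf0.le) b2 (by positivity)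
          apply mul_nonneg hf0.le
          linarith
  -- the error terms
  have hlX : L / 2 ≤ Real.log X := by
    have g1 : Real.log ((Y : ℝ) ^ ρ) ≤ Real.log X := Real.log_le_log (by positivity) hX
    rw [Real.log_rpow hY0, ← hL] at g1
    nlinarith
  have e1 : 10 * L * (X / Real.log X ^ (B + 2)) ≤ X / (4 * L ^ B) := by
    have g1 : (L / 2) ^ (B + 2) ≤ Real.log X ^ (B + 2) := pow_le_pow_left₀ (by positivity) hlX _
    calc 10 * L * (X / Real.log X ^ (B + 2)) ≤ 10 * L * (X / (L / 2) ^ (B + 2)) := by gcongr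
      _ = X * (10 * 2 ^ (B + 2)) / (L * L ^ B) := by
          rw [div_pow, pow_add L B 2]
          field_simp
      _ ≤ X * (L / 4) / (L * L ^ B) := by
          gcongr
          linarith
      _ = X / (4 * L ^ B) := by field_simp
  have hsum : ∀ a : ℝ, (Y : ℝ) ^ a * (Y : ℝ) ^ (ρ - a) = (Y : ℝ) ^ ρ := by
    intro a
    rw [← Real.rpow_add hY0]
    congr 1
    ring
  have e2 : 2 * √(M : ℝ) * Real.log M ≤ X / (4 * L ^ B) := by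
    have g1 : √(M : ℝ) ≤ (Y : ℝ) ^ (1 / 2 : ℝ) := by
      rw [← Real.sqrt_eq_rpow]
      exact Real.sqrt_le_sqrt hMYr
    rw [le_div_iff₀ (by positivity)]
    calc 2 * √(M : ℝ) * Real.log M * (4 * L ^ B) ≤ 2 * (Y : ℝ) ^ (1 / 2 : ℝ) * L * (4 * L ^ B) := by gcongr
      _ = (Y : ℝ) ^ (1 / 2 : ℝ) * (8 * L ^ (B + 1)) := by rw [pow_succ]; ring
      _ ≤ (Y : ℝ) ^ (1 / 2 : ℝ) * (Y : ℝ) ^ (ρ - 1 / 2) := by gcongr
      _ = (Y : ℝ) ^ ρ := hsum _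
      _ ≤ X := hX
  have e3 : Real.log M * (4 * (M : ℝ) / (Y : ℝ) ^ ζ) ≤ X / (4 * L ^ B) := by
    rw [le_div_iff₀ (by positivity)]
    calc Real.log M * (4 * (M : ℝ) / (Y : ℝ) ^ ζ) * (4 * L ^ B) ≤ L * (4 * (3 * X) / (Y : ℝ) ^ ζ) * (4 * L ^ B) := by gcongr
      _ = X * ((48 * L ^ (B + 1)) / (Y : ℝ) ^ ζ) := by rw [pow_succ]; ring
      _ ≤ X * 1 := by
          apply mul_le_mul_of_nonneg_left _ hX0.le
          rw [div_le_one (by positivity)]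
          exact a4
      _ = X := mul_one X
  have e4 : Real.log M * (2 * (Y : ℝ) ^ υ) ≤ X / (4 * L ^ B) := by
    rw [le_div_iff₀ (by positivity)]
    calc Real.log M * (2 * (Y : ℝ) ^ υ) * (4 * L ^ B) ≤ L * (2 * (Y : ℝ) ^ υ) * (4 * L ^ B) := by gcongr
      _ = (Y : ℝ) ^ υ * (8 * L ^ (B + 1)) := by rw [pow_succ]; ring
      _ ≤ (Y : ℝ) ^ υ * (Y : ℝ) ^ (ρ - υ) := by gcongr
      _ = (Y : ℝ) ^ ρ := hsum _
      _ ≤ X := hX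
  have e5 : X / L ^ B = 4 * (X / (4 * L ^ B)) := by field_simp
  have e6 : f0 * c / 100 * Vz z * X / L = 2 * (f0 * c / 200 * Vz z * X / L) := by ring
  rw [e5, e6]
  have e7 : Real.log M * (4 * (M : ℝ) / (Y : ℝ) ^ ζ + 2 * (Y : ℝ) ^ υ) =
    Real.log M * (4 * (M : ℝ) / (Y : ℝ) ^ ζ) + Real.log M * (2 * (Y : ℝ) ^ υ) := by ring
  have e8 : 1 / 2 * Real.log M * (4 * (M : ℝ) / (Y : ℝ) ^ ζ + 2 * (Y : ℝ) ^ υ) =
    1 / 2 * (Real.log M * (4 * (M : ℝ) / (Y : ℝ) ^ ζ + 2 * (Y : ℝ) ^ υ)) := by ring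
  rw [e8, e7] at b5
  have b7 := b1.trans b5
  have e9 : 5 * L * (X / Real.log X ^ (B + 2)) = 1 / 2 * (10 * L * (X / Real.log X ^ (B + 2))) := by ring
  rw [e9] at b7
  linarith

end Pool.Agent.D0H63.FP
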